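import Mathlib

/-!
# Almost integral elements and conductors
-/

namespace Pool.Agent.H29.Flex

open Polynomial

variable {A : Type*} [CommRing A] [Algebra ℂ A]

/-- If a monic polynomial over `A` with coefficients in the subalgebra `R` kills `x` then `x` is
integral over `R`. -/
theorem isIntegral_of_coeff {R : Subalgebra ℂ A} {x : A} {P : A[X]} (hP : P.Monic)
    (hc : ∀ n, P.coeff n ∈ R) (hx : P.eval x = 0) : IsIntegral R x := by
  have h1 : P ∈ lifts (algebraMap R A) := by
    rw [lifts_iff_coeff_lifts]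
    intro n
    exact ⟨⟨P.coeff n, hc n⟩, rfl⟩
  obtain ⟨q, hq1, -, hq3⟩ := lifts_and_natDegree_eq_and_monic h1 hP
  refine ⟨q, hq3, ?_⟩
  rw [← eval_map, hq1, hx]

variable [IsDomain A]

/-- The elements that are almost integral over `B` (with a conductor from `A`). -/
def almost (B : Subalgebra ℂ A) : Subalgebra ℂ A where
  carrier := {x | ∃ c : A, c ≠ 0 ∧ ∀ n : ℕ, c * x ^ n ∈ B}
  mul_mem' := by
    rintro x y ⟨c, hc, hx⟩ ⟨d, hd, hy⟩
    refine ⟨c * d, mul_ne_zero hc hd, fun n => ?_⟩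
    have : c * d * (x * y) ^ n = (c * x ^ n) * (d * y ^ n) := by rw [mul_pow]; ring
    rw [this]
    exact B.mul_mem (hx n) (hy n)
  add_mem' := by
    rintro x y ⟨c, hc, hx⟩ ⟨d, hd, hy⟩
    refine ⟨c * d, mul_ne_zero hc hd, fun n => ?_⟩
    rw [add_pow, Finset.mul_sum]
    apply Subalgebra.sum_mem
    intro k _
    have : c * d * (x ^ k * y ^ (n - k) * (n.choose k : A)) =
      (n.choose k : A) * ((c * x ^ k) * (d * y ^ (n - k))) := by ring
    rw [this]
    exact B.mul_mem (natCast_mem B _) (B.mul_mem (hx k) (hy (n - k)))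
  algebraMap_mem' := by
    intro c
    refine ⟨1, one_ne_zero, fun n => ?_⟩
    rw [one_mul, ← map_pow]
    exact B.algebraMap_mem _

theorem mem_almost {B : Subalgebra ℂ A} {x : A} :
    x ∈ almost B ↔ ∃ c : A, c ≠ 0 ∧ ∀ n : ℕ, c * x ^ n ∈ B := Iff.rfl

/-- A finitely generated algebra of almost integral elements has a nonzero conductor. -/
theorem finset_conductor {B : Subalgebra ℂ A} (F : Finset A) (hF : ∀ x ∈ F, x ∈ almost B) :
    ∃ c : A, c ≠ 0 ∧ ∀ y ∈ Algebra.adjoin ℂ (F : Set A), c * y ∈ B := by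
  classical
  choose! c hc0 hc using fun x (hx : x ∈ F) => mem_almost.mp (hF x hx)
  refine ⟨∏ x ∈ F, c x, Finset.prod_ne_zero_iff.mpr hc0, fun y hy => ?_⟩
  have hy2 : y ∈ Submodule.span ℂ (Submonoid.closure (F : Set A) : Set A) := by
    rw [← Algebra.adjoin_eq_span]; exact hy
  clear hy
  induction hy2 using Submodule.span_induction with
  | mem x hx =>
    obtain ⟨f, -, rfl⟩ := Submonoid.mem_closure_finset.mp hx
    rw [← Finset.prod_mul_distrib]
    exact Subalgebra.prod_mem _ fun x hx => hc x hx _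
  | zero => rw [mul_zero]; exact B.zero_mem
  | add x y _ _ hx hy =>
    rw [mul_add]
    exact B.add_mem hx hy
  | smul a x _ hx =>
    rw [mul_smul_comm]
    exact B.smul_mem hx a

theorem isIntegral_almost {B : Subalgebra ℂ A} (hB : ∀ x : A, ∃ r ∈ B, r ≠ 0 ∧ r * x ∈ B)
    {x : A}
    (hx : IsIntegral (almost B) x) : x ∈ almost B := by
  classical
  obtain ⟨p, hp, hpx⟩ := hx
  set P : A[X] := p.map (algebraMap (almost B) A) with hP
  set F : Finset A := P.coeffs with hF
  have hFB : ∀ y ∈ F, y ∈ almost B := by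
    intro y hy
    rw [hF, mem_coeffs_iff] at hy
    obtain ⟨n, -, rfl⟩ := hy
    rw [hP, coeff_map]
    exact (p.coeff n).2
  obtain ⟨c, hc0, hc⟩ := finset_conductor F hFB
  set R := Algebra.adjoin ℂ (F : Set A) with hR
  have hint : IsIntegral R x := by
    refine isIntegral_of_coeff (P := P) (hp.map _) (fun n => ?_) (by rw [hP, eval_map]; exact hpx)
    by_cases h : P.coeff n = 0
    · rw [h]; exact R.zero_mem
    · apply Algebra.subset_adjoin
      exact coeff_mem_coeffs h
  obtain ⟨T, hT⟩ := hint.fg_adjoin_singleton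
  choose r hrB hr0 hr using hB
  refine ⟨c * ∏ t ∈ T, r t, mul_ne_zero hc0 (Finset.prod_ne_zero_iff.mpr fun t _ => hr0 t),
    fun n => ?_⟩
  have hxn : x ^ n ∈ Submodule.span R (T : Set A) := by
    rw [hT]
    exact Subalgebra.pow_mem _ (Algebra.self_mem_adjoin_singleton R x) n
  obtain ⟨g, hg⟩ := Submodule.mem_span_finset.mp hxn
  rw [← hg.2, Finset.mul_sum]
  apply Subalgebra.sum_mem
  intro t ht
  rw [← Finset.mul_prod_erase T r ht]
  have h1 : c * (r t * ∏ s ∈ T.erase t, r s) * g t • t =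
      (c * (g t : A)) * (r t * t) * ∏ s ∈ T.erase t, r s := by
    rw [Algebra.smul_def]
    show c * (r t * ∏ s ∈ T.erase t, r s) * ((g t : A) * t) = _
    ring
  rw [h1]
  exact B.mul_mem (B.mul_mem (hc _ (g t).2) (hr t)) (Subalgebra.prod_mem _ fun s _ => hrB s)

/-- Total conductor. -/
theorem exists_total_conductor [Algebra.FiniteType ℂ A] {B : Subalgebra ℂ A}
    (hB : ∀ x : A, ∃ r ∈ B, r ≠ 0 ∧ r * x ∈ B) {G : Set A} (hG : ∀ x ∈ G, x ∈ almost B)
    (hint : ∀ x : A, IsIntegral (Algebra.adjoin ℂ G) x) :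
    ∃ c : A, c ≠ 0 ∧ ∀ y, c * y ∈ B := by
  have h1 : Algebra.adjoin ℂ G ≤ almost B := Algebra.adjoin_le hG
  have h2 : ∀ x, x ∈ almost B := by
    intro x
    apply isIntegral_almost hB
    obtain ⟨p, hp, hpx⟩ := hint x
    refine isIntegral_of_coeff (P := p.map (algebraMap _ A)) (hp.map _) (fun n => ?_)
      (by rw [eval_map]; exact hpx)
    rw [coeff_map]
    exact h1 (p.coeff n).2
  obtain ⟨F, hF⟩ := Algebra.FiniteType.out (R := ℂ) (A := A)
  obtain ⟨c, hc0, hc⟩ := finset_conductor F (B := B) (fun x _ => h2 x)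
  exact ⟨c, hc0, fun y => hc y (by rw [hF]; exact Algebra.mem_top)⟩

end Pool.Agent.H29.Flex
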