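import Pool.Agent.H29.Flex.Defs

/-!
# Complete vector fields
-/

namespace Pool.Agent.H29.Flex

open Polynomial

variable {A : Type*} [CommRing A] [Algebra ℂ A]

/-- If `w` is complete and `w f = 0` then `f w` is complete. -/
theorem IsComplete.smul {w : Derivation ℂ A A} (hw : IsComplete w) {f : A} (hf : w f = 0) :
    IsComplete (f • w) := by
  intro x
  obtain ⟨γ, h0, hγ⟩ := hw x
  have hc : ∀ t, γ t f = x f := by
    intro t
    have hd : ∀ t, HasDerivAt (fun s => γ s f) 0 t := by
      intro t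
      have := hγ f t
      rwa [hf, map_zero] at this
    have h1 := is_const_of_deriv_eq_zero (f := fun s => γ s f)
      (fun t => (hd t).differentiableAt) (fun t => (hd t).deriv) t 0
    simpa [h0] using h1
  refine ⟨fun t => γ (x f * t), by simp [h0], fun a t => ?_⟩
  have h1 := (hγ a (x f * t)).comp t ((hasDerivAt_id t).const_mul (x f))
  simp only [Derivation.smul_apply, smul_eq_mul, map_mul, hc]
  simp only [mul_one] at h1
  rw [mul_comm]
  exact h1

/-- Taylor coefficients along a locally nilpotent derivation. -/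
noncomputable def tay (σ : Derivation ℂ A A) (x : A →ₐ[ℂ] ℂ) (a : A) (k : ℕ) : ℂ :=
  x (σ^[k] a) / (k.factorial : ℂ)

theorem iter_zero_of_le {σ : Derivation ℂ A A} {a : A} {n m : ℕ} (h : σ^[n] a = 0) (hm : n ≤ m) :
    σ^[m] a = 0 := by
  obtain ⟨k, rfl⟩ := Nat.exists_eq_add_of_le hm
  rw [add_comm, Function.iterate_add_apply, h, ← Derivation.coeFn_coe]
  exact iterate_map_zero _ _

theorem iterate_zero' (σ : Derivation ℂ A A) (n : ℕ) : σ^[n] 0 = 0 := by
  rw [← Derivation.coeFn_coe]; exact iterate_map_zero _ _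

theorem iterate_add' (σ : Derivation ℂ A A) (n : ℕ) (a b : A) :
    σ^[n] (a + b) = σ^[n] a + σ^[n] b := by
  rw [← Derivation.coeFn_coe]; exact iterate_map_add _ _ _ _

theorem iterate_sub' (σ : Derivation ℂ A A) (n : ℕ) (a b : A) :
    σ^[n] (a - b) = σ^[n] a - σ^[n] b := by
  rw [← Derivation.coeFn_coe]; exact iterate_map_sub _ _ _ _

theorem iterate_smul' (σ : Derivation ℂ A A) (n : ℕ) (c : ℂ) (a : A) :
    σ^[n] (c • a) = c • σ^[n] a := by
  induction n generalizing a with
  | zero => rfl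
  | succ n ih => rw [Function.iterate_succ_apply, Function.iterate_succ_apply, Derivation.map_smul, ih]

/-- The Taylor polynomial of `a` at `x` along `σ`. -/
noncomputable def tayP {σ : Derivation ℂ A A} (hσ : IsLND σ) (x : A →ₐ[ℂ] ℂ) (a : A) : ℂ[X] :=
  ∑ k ∈ Finset.range (hσ a).choose, C (tay σ x a k) * X ^ k

theorem coeff_tayP {σ : Derivation ℂ A A} (hσ : IsLND σ) (x : A →ₐ[ℂ] ℂ) (a : A) (k : ℕ) :
    (tayP hσ x a).coeff k = tay σ x a k := by
  simp only [tayP, finsetSum_coeff, coeff_C_mul_X_pow]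
  rw [Finset.sum_ite_eq]
  split_ifs with h
  · rfl
  · rw [Finset.mem_range, not_lt] at h
    rw [tay, iter_zero_of_le (hσ a).choose_spec h, map_zero, zero_div]

theorem tayP_derivative {σ : Derivation ℂ A A} (hσ : IsLND σ) (x : A →ₐ[ℂ] ℂ) (a : A) :
    derivative (tayP hσ x a) = tayP hσ x (σ a) := by
  ext k
  rw [coeff_derivative, coeff_tayP, coeff_tayP, tay, tay, Nat.factorial_succ,
    Function.iterate_succ_apply]
  have h1 : ((k.factorial : ℕ) : ℂ) ≠ 0 := by exact_mod_cast Nat.factorial_ne_zero k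
  have h2 : ((k : ℂ) + 1) ≠ 0 := by exact_mod_cast Nat.succ_ne_zero k
  push_cast
  field_simp

theorem coeff_zero_tayP {σ : Derivation ℂ A A} (hσ : IsLND σ) (x : A →ₐ[ℂ] ℂ) (a : A) :
    (tayP hσ x a).coeff 0 = x a := by
  rw [coeff_tayP, tay]; simp

theorem tayP_add {σ : Derivation ℂ A A} (hσ : IsLND σ) (x : A →ₐ[ℂ] ℂ) (a b : A) :
    tayP hσ x (a + b) = tayP hσ x a + tayP hσ x b := by
  ext k
  simp only [coeff_add, coeff_tayP, tay, iterate_add', map_add, add_div]

theorem tayP_smul {σ : Derivation ℂ A A} (hσ : IsLND σ) (x : A →ₐ[ℂ] ℂ) (c : ℂ) (a : A) :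
    tayP hσ x (c • a) = c • tayP hσ x a := by
  ext k
  simp only [coeff_smul, coeff_tayP, tay, iterate_smul', map_smul, smul_eq_mul]
  ring

theorem tayP_mul {σ : Derivation ℂ A A} (hσ : IsLND σ) (x : A →ₐ[ℂ] ℂ) (a b : A) :
    tayP hσ x (a * b) = tayP hσ x a * tayP hσ x b := by
  have key : ∀ (k : ℕ) (a b : A), (tayP hσ x (a * b)).coeff k =
      (tayP hσ x a * tayP hσ x b).coeff k := by
    intro k
    induction k with
    | zero =>
      intro a b
      rw [mul_coeff_zero, coeff_zero_tayP, coeff_zero_tayP, coeff_zero_tayP, map_mul]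
    | succ k ih =>
      intro a b
      have h2 : ((k : ℂ) + 1) ≠ 0 := by exact_mod_cast Nat.succ_ne_zero k
      apply mul_right_cancel₀ h2
      rw [← coeff_derivative, ← coeff_derivative, tayP_derivative, derivative_mul,
        tayP_derivative, tayP_derivative, coeff_add, ← ih, ← ih, Derivation.leibniz, tayP_add,
        coeff_add, smul_eq_mul, smul_eq_mul, mul_comm b, add_comm]
  ext k
  exact key k a b

theorem tayP_one {σ : Derivation ℂ A A} (hσ : IsLND σ) (x : A →ₐ[ℂ] ℂ) :
    tayP hσ x 1 = 1 := by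
  ext k
  cases k with
  | zero => rw [coeff_zero_tayP, map_one, coeff_one_zero]
  | succ k =>
    rw [coeff_tayP, tay, Function.iterate_succ_apply, Derivation.map_one_eq_zero,
      iterate_zero', map_zero, zero_div, coeff_one, if_neg (Nat.succ_ne_zero k)]

/-- The Taylor expansion as an algebra homomorphism. -/
noncomputable def tayHom {σ : Derivation ℂ A A} (hσ : IsLND σ) (x : A →ₐ[ℂ] ℂ) : A →ₐ[ℂ] ℂ[X] :=
  AlgHom.ofLinearMap
    { toFun := tayP hσ x
      map_add' := tayP_add hσ x
      map_smul' := tayP_smul hσ x }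
    (tayP_one hσ x) (tayP_mul hσ x)

/-- The exponential of a locally nilpotent derivation. -/
noncomputable def flow {σ : Derivation ℂ A A} (hσ : IsLND σ) (x : A →ₐ[ℂ] ℂ) (s : ℂ) :
    A →ₐ[ℂ] ℂ :=
  (Polynomial.aeval s : ℂ[X] →ₐ[ℂ] ℂ).comp (tayHom hσ x)

theorem flow_apply {σ : Derivation ℂ A A} (hσ : IsLND σ) (x : A →ₐ[ℂ] ℂ) (s : ℂ) (a : A) :
    flow hσ x s a = (tayP hσ x a).eval s := by
  simp [flow, tayHom]

theorem flow_zero {σ : Derivation ℂ A A} (hσ : IsLND σ) (x : A →ₐ[ℂ] ℂ) :
    flow hσ x 0 = x := by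
  ext a
  rw [flow_apply, ← coeff_zero_eq_eval_zero, coeff_zero_tayP]

theorem hasDerivAt_flow {σ : Derivation ℂ A A} (hσ : IsLND σ) (x : A →ₐ[ℂ] ℂ) (s : ℂ) (a : A) :
    HasDerivAt (fun s => flow hσ x s a) (flow hσ x s (σ a)) s := by
  simp only [flow_apply]
  rw [← tayP_derivative]
  exact (tayP hσ x a).hasDerivAt s

theorem flow_of_sq {σ : Derivation ℂ A A} (hσ : IsLND σ) (x : A →ₐ[ℂ] ℂ) (s : ℂ) {f : A}
    (hf : σ (σ f) = 0) : flow hσ x s f = x f + s * x (σ f) := by
  have h : tayP hσ x f = C (x f) + C (x (σ f)) * X := by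
    ext k
    rw [coeff_tayP, tay, coeff_add, coeff_C, coeff_C_mul, coeff_X]
    match k with
    | 0 => simp
    | 1 => simp
    | (k + 2) =>
      rw [Function.iterate_succ_apply, Function.iterate_succ_apply, hf, iterate_zero']
      simp
  rw [flow_apply, h]
  simp
  ring

/-- If `σ` is locally nilpotent and `σ² f = 0` then `f σ` is complete. -/
theorem isComplete_smul_of_sq {σ : Derivation ℂ A A} (hσ : IsLND σ) {f : A}
    (hf : σ (σ f) = 0) : IsComplete (f • σ) := by
  intro x
  have key : ∃ s : ℂ → ℂ, s 0 = 0 ∧ ∀ t, HasDerivAt s (x f + s t * x (σ f)) t := by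
    by_cases hβ : x (σ f) = 0
    · refine ⟨fun t => x f * t, by simp, fun t => ?_⟩
      rw [hβ, mul_zero, add_zero]
      simpa using (hasDerivAt_id t).const_mul (x f)
    · refine ⟨fun t => x f * (Complex.exp (x (σ f) * t) - 1) / x (σ f), by simp, fun t => ?_⟩
      have h1 : HasDerivAt (fun t : ℂ => x (σ f) * t) (x (σ f)) t := by
        simpa using (hasDerivAt_id t).const_mul (x (σ f))
      have h2 := (((h1.cexp).sub_const 1).const_mul (x f)).div_const (x (σ f))
      refine h2.congr_deriv ?_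
      show x f * (Complex.exp (x (σ f) * t) * x (σ f)) / x (σ f) =
        x f + x f * (Complex.exp (x (σ f) * t) - 1) / x (σ f) * x (σ f)
      rw [div_mul_cancel₀ _ hβ, ← mul_assoc, mul_div_cancel_right₀ _ hβ]
      ring
  obtain ⟨s, hs0, hs⟩ := key
  refine ⟨fun t => flow hσ x (s t), by simp [hs0, flow_zero], fun a t => ?_⟩
  have h1 := (hasDerivAt_flow hσ x (s t) a).comp t (hs t)
  rw [Derivation.smul_apply, smul_eq_mul, map_mul, flow_of_sq hσ x (s t) hf, mul_comm]
  exact h1

theorem IsLND.isComplete {σ : Derivation ℂ A A} (hσ : IsLND σ) : IsComplete σ := by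
  have := isComplete_smul_of_sq hσ (f := 1) (by simp)
  simpa using this

/-- Replicas of locally nilpotent derivations are locally nilpotent. -/
theorem iterate_smul_of_ker {σ : Derivation ℂ A A} {f : A} (hf : σ f = 0) (n : ℕ) (a : A) :
    σ^[n] (f * a) = f * σ^[n] a := by
  induction n generalizing a with
  | zero => rfl
  | succ n ih =>
    rw [Function.iterate_succ_apply, Function.iterate_succ_apply, Derivation.leibniz, hf,
      smul_zero, add_zero, smul_eq_mul, ih]

theorem IsLND.smul {σ : Derivation ℂ A A} (hσ : IsLND σ) {f : A} (hf : σ f = 0) :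
    IsLND (f • σ) := by
  have key : ∀ n a, (f • σ)^[n] a = f ^ n * σ^[n] a := by
    intro n
    induction n with
    | zero => intro a; simp
    | succ n ih =>
      intro a
      rw [Function.iterate_succ_apply, ih, Function.iterate_succ_apply, Derivation.smul_apply,
        smul_eq_mul, iterate_smul_of_ker hf, pow_succ]
      ring
  intro a
  obtain ⟨n, hn⟩ := hσ a
  exact ⟨n, by rw [key, hn, mul_zero]⟩

end Pool.Agent.H29.Flex
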