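import Pool.Agent.H29.Flex.Lnd

/-!
# The ring of multipliers attached to a locally nilpotent derivation

`L` is a Lie algebra of derivations containing `f σ` whenever `σ² f = 0`.
-/

namespace Pool.Agent.H29.Flex

variable {A : Type*} [CommRing A] [Algebra ℂ A]

/-- The span of the `a * w b` with `a, b ∈ ker σ`, `w ∈ L`. -/
def spn (L : LieSubalgebra ℂ (Derivation ℂ A A)) (σ : Derivation ℂ A A) : Submodule ℂ A :=
  Submodule.span ℂ {s | ∃ a b w, σ a = 0 ∧ σ b = 0 ∧ w ∈ L ∧ s = a * w b}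

variable {L : LieSubalgebra ℂ (Derivation ℂ A A)} {σ : Derivation ℂ A A}

theorem mem_spn {a b : A} {w : Derivation ℂ A A} (ha : σ a = 0) (hb : σ b = 0) (hw : w ∈ L) :
    a * w b ∈ spn L σ := Submodule.subset_span ⟨a, b, w, ha, hb, hw, rfl⟩

theorem mem_spn' {b : A} {w : Derivation ℂ A A} (hb : σ b = 0) (hw : w ∈ L) :
    w b ∈ spn L σ := by
  have := mem_spn (a := 1) (by simp) hb hw
  simpa using this

theorem spn_induction {P : A → Prop} {s : A} (hs : s ∈ spn L σ) (h0 : P 0)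
    (hadd : ∀ x y, P x → P y → P (x + y)) (hsmul : ∀ (c : ℂ) x, P x → P (c • x))
    (hmem : ∀ a b w, σ a = 0 → σ b = 0 → w ∈ L → P (a * w b)) : P s := by
  unfold spn at hs
  induction hs using Submodule.span_induction with
  | mem x hx =>
    obtain ⟨a, b, w, ha, hb, hw, rfl⟩ := hx
    exact hmem a b w ha hb hw
  | zero => exact h0
  | add x y _ _ hx hy => exact hadd x y hx hy
  | smul c x _ hx => exact hsmul c x hx

theorem spn_ker_mul {x s : A} (hx : σ x = 0) (hs : s ∈ spn L σ) : x * s ∈ spn L σ := by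
  refine spn_induction (P := fun s => x * s ∈ spn L σ) hs ?_ ?_ ?_ ?_
  · show _ ∈ _
    rw [mul_zero]; exact Submodule.zero_mem _
  · intro a b ha hb
    show _ ∈ _
    rw [mul_add]; exact Submodule.add_mem _ ha hb
  · intro c a ha
    show _ ∈ _
    rw [mul_smul_comm]; exact Submodule.smul_mem _ c ha
  · intro a b w ha hb hw
    show _ ∈ _
    rw [← mul_assoc]
    exact mem_spn (by rw [Derivation.leibniz, hx, ha]; simp) hb hw

theorem spn_smul_mem (hL : ∀ f, σ (σ f) = 0 → f • σ ∈ L) {h : A} (hh : σ (σ h) = 0) {s : A}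
    (hs : s ∈ spn L σ) : (σ h * s) • σ ∈ L := by
  refine spn_induction (P := fun s => (σ h * s) • σ ∈ L) hs ?_ ?_ ?_ ?_
  · show _ ∈ _
    rw [mul_zero, zero_smul]; exact L.zero_mem
  · intro a b ha hb
    show _ ∈ _
    rw [mul_add, add_smul]; exact L.add_mem ha hb
  · intro c a ha
    show _ ∈ _
    rw [mul_smul_comm, smul_assoc]; exact L.smul_mem c ha
  · intro a b w ha hb hw
    show _ ∈ _
    have h1 : (b * h) • σ ∈ L := by
      apply hL
      rw [Derivation.leibniz, hb, smul_zero, add_zero, smul_eq_mul, Derivation.leibniz, hb, hh]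
      simp
    have h2 : h • σ ∈ L := hL h hh
    have h3 : a • σ ∈ L := hL a (by rw [ha, map_zero])
    have h4 : (a * b) • σ ∈ L := hL (a * b) (by rw [Derivation.leibniz, ha, hb]; simp)
    have h5 := L.sub_mem (L.lie_mem h2 (L.lie_mem h4 hw)) (L.lie_mem h1 (L.lie_mem h3 hw))
    convert h5 using 1
    apply Derivation.ext
    intro c
    simp only [Derivation.commutator_apply, Derivation.smul_apply, Derivation.sub_apply,
      Derivation.leibniz, smul_eq_mul, map_sub, map_add, ha, hb, map_zero, mul_zero,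
      add_zero, sub_zero]
    ring

theorem sigma_mem (hL : ∀ f, σ (σ f) = 0 → f • σ ∈ L) : σ ∈ L := by
  have := hL 1 (by simp)
  simpa using this

theorem spn_sigma (hL : ∀ f, σ (σ f) = 0 → f • σ ∈ L) {s : A} (hs : s ∈ spn L σ) :
    σ s ∈ spn L σ := by
  refine spn_induction (P := fun s => σ s ∈ spn L σ) hs ?_ ?_ ?_ ?_
  · show _ ∈ _
    rw [map_zero]; exact Submodule.zero_mem _
  · intro a b ha hb
    show _ ∈ _
    rw [map_add]; exact Submodule.add_mem _ ha hb
  · intro c a ha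
    show _ ∈ _
    rw [Derivation.map_smul]; exact Submodule.smul_mem _ c ha
  · intro a b w ha hb hw
    show _ ∈ _
    have h1 := mem_spn ha hb (L.lie_mem (sigma_mem hL) hw)
    rw [Derivation.commutator_apply, hb, map_zero, sub_zero] at h1
    rw [Derivation.leibniz, ha, smul_zero, add_zero, smul_eq_mul]
    exact h1

theorem spn_mul_sigma (hL : ∀ f, σ (σ f) = 0 → f • σ ∈ L) {h : A} (hh : σ (σ h) = 0) {s t : A}
    (hs : s ∈ spn L σ) (ht : t ∈ spn L σ) : σ h * s * σ t ∈ spn L σ := by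
  refine spn_induction (P := fun t => σ h * s * σ t ∈ spn L σ) ht ?_ ?_ ?_ ?_
  · show _ ∈ _
    rw [map_zero, mul_zero]; exact Submodule.zero_mem _
  · intro a b ha hb
    show _ ∈ _
    rw [map_add, mul_add]; exact Submodule.add_mem _ ha hb
  · intro c a ha
    show _ ∈ _
    rw [Derivation.map_smul, mul_smul_comm]; exact Submodule.smul_mem _ c ha
  · intro a b w ha hb hw
    show _ ∈ _
    have h1 := mem_spn ha hb (L.lie_mem (spn_smul_mem hL hh hs) hw)
    rw [Derivation.commutator_apply, Derivation.smul_apply, Derivation.smul_apply, hb, smul_zero,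
      map_zero, sub_zero, smul_eq_mul] at h1
    rw [Derivation.leibniz, ha, smul_zero, add_zero, smul_eq_mul]
    convert h1 using 1
    ring

/-- The ring of multipliers of `spn L σ`. -/
def mulAlg (L : LieSubalgebra ℂ (Derivation ℂ A A)) (σ : Derivation ℂ A A) : Subalgebra ℂ A where
  carrier := {x | ∀ s ∈ spn L σ, x * s ∈ spn L σ}
  mul_mem' := by
    intro a b ha hb s hs
    rw [mul_assoc]
    exact ha _ (hb s hs)
  add_mem' := by
    intro a b ha hb s hs
    rw [add_mul]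
    exact Submodule.add_mem _ (ha s hs) (hb s hs)
  algebraMap_mem' := by
    intro c s hs
    rw [← Algebra.smul_def]
    exact Submodule.smul_mem _ c hs

theorem mem_mulAlg {x : A} : x ∈ mulAlg L σ ↔ ∀ s ∈ spn L σ, x * s ∈ spn L σ := Iff.rfl

theorem ker_le_mulAlg {x : A} (hx : σ x = 0) : x ∈ mulAlg L σ := fun _ hs => spn_ker_mul hx hs

theorem sigma_mem_mulAlg (hL : ∀ f, σ (σ f) = 0 → f • σ ∈ L) {x : A} (hx : x ∈ mulAlg L σ) :
    σ x ∈ mulAlg L σ := by
  intro s hs
  have h1 : σ x * s = σ (x * s) - x * σ s := by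
    rw [Derivation.leibniz, smul_eq_mul, smul_eq_mul]; ring
  rw [h1]
  exact Submodule.sub_mem _ (spn_sigma hL (hx s hs)) (hx _ (spn_sigma hL hs))

theorem mul_sigma_mem_mulAlg (hL : ∀ f, σ (σ f) = 0 → f • σ ∈ L) {h : A} (hh : σ (σ h) = 0)
    {t : A} (ht : t ∈ spn L σ) : σ h * σ t ∈ mulAlg L σ := by
  intro s hs
  have := spn_mul_sigma hL hh hs ht
  convert this using 1
  ring

/-- The main multiplier identity. -/
theorem smul_ker_mem (hL : ∀ f, σ (σ f) = 0 → f • σ ∈ L) {h : A} (hh : σ (σ h) = 0)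
    {w : Derivation ℂ A A} (hw : ∀ f, w f = 0 → f • w ∈ L) {a v F : A} (ha : σ a = 0)
    (hv : w v = 0) (hF : w F = 0) : ((σ h) ^ 2 * (w a) ^ 2 * (σ v) ^ 2) * F ∈ mulAlg L σ := by
  have hE : ∀ f, w f = 0 → σ h * (σ f * w a + f * σ (w a)) ∈ mulAlg L σ := by
    intro f hf
    have h1 : f * w a ∈ spn L σ := by
      have := mem_spn' (σ := σ) ha (hw f hf)
      simpa using this
    have h2 := mul_sigma_mem_mulAlg hL hh h1
    rw [Derivation.leibniz, smul_eq_mul, smul_eq_mul] at h2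
    convert h2 using 2
    ring
  have hB : ∀ f g, w f = 0 → w g = 0 → (σ h) ^ 2 * (w a) ^ 2 * (σ f * σ g) ∈ mulAlg L σ := by
    intro f g hf hg
    have hfg : w (f * g) = 0 := by rw [Derivation.leibniz, hf, hg]; simp
    have h1 := (mulAlg L σ).sub_mem ((mulAlg L σ).mul_mem (hE f hf) (hE g hg))
      ((mulAlg L σ).mul_mem (hE _ hfg) (hE 1 (by simp)))
    convert h1 using 1
    rw [Derivation.leibniz, Derivation.map_one_eq_zero, smul_eq_mul, smul_eq_mul]
    ring
  have hvF : w (v * F) = 0 := by rw [Derivation.leibniz, hv, hF]; simp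
  have hvv : w (v * v) = 0 := by rw [Derivation.leibniz, hv]; simp
  have h1 := hB (v * F) v hvF hv
  have h2 := hB F (v * v) hF hvv
  have h3 := (mulAlg L σ).sub_mem h1 ((mulAlg L σ).smul_mem h2 (2⁻¹ : ℂ))
  convert h3 using 1
  rw [Derivation.leibniz, Derivation.leibniz, smul_eq_mul, smul_eq_mul, smul_eq_mul]
  have h4 : (2⁻¹ : ℂ) • (σ h ^ 2 * w a ^ 2 * (σ F * (v * σ v + v * σ v))) =
      σ h ^ 2 * w a ^ 2 * (σ F * (v * σ v)) := by
    rw [← two_mul (v * σ v)]
    have : (2 : A) = algebraMap ℂ A 2 := (map_ofNat (algebraMap ℂ A) 2).symm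
    rw [this, Algebra.smul_def]
    have h5 : algebraMap ℂ A 2⁻¹ * algebraMap ℂ A 2 = 1 := by
      rw [← map_mul, inv_mul_cancel₀ two_ne_zero, map_one]
    linear_combination (σ h ^ 2 * w a ^ 2 * (σ F * (v * σ v))) * h5
  rw [h4]
  ring

variable [IsDomain A]

/-- For every nonzero `w` with the replica property there is a nonzero conductor. -/
theorem exists_conductor (hσ : IsLND σ) (h0 : σ ≠ 0) (hL : ∀ f, σ (σ f) = 0 → f • σ ∈ L)
    {w : Derivation ℂ A A} (hw0 : w ≠ 0) (hw : ∀ f, w f = 0 → f • w ∈ L) :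
    ∃ c ≠ 0, ∀ F, w F = 0 → c * F ∈ mulAlg L σ := by
  obtain ⟨h, hq, hh⟩ := exists_slice hσ h0
  by_cases h1 : ∃ a, σ a = 0 ∧ w a ≠ 0
  · obtain ⟨a, ha, hwa⟩ := h1
    by_cases h2 : ∃ v, w v = 0 ∧ σ v ≠ 0
    · obtain ⟨v, hv, hσv⟩ := h2
      refine ⟨(σ h) ^ 2 * (w a) ^ 2 * (σ v) ^ 2, ?_, fun F hF => smul_ker_mem hL hh hw ha hv hF⟩
      exact mul_ne_zero (mul_ne_zero (pow_ne_zero _ hq) (pow_ne_zero _ hwa)) (pow_ne_zero _ hσv)
    · push Not at h2
      exact ⟨1, one_ne_zero, fun F hF => by rw [one_mul]; exact ker_le_mulAlg (h2 F hF)⟩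
  · push Not at h1
    refine ⟨1, one_ne_zero, fun F hF => ?_⟩
    rw [one_mul]
    apply ker_le_mulAlg
    have h3 := smul_eq_smul_of_ker_le hσ h1 hq hh
    have h4 : w h ≠ 0 := by
      intro h4
      rw [h4, zero_smul] at h3
      apply hw0
      apply Derivation.ext
      intro a
      have := congrArg (fun D : Derivation ℂ A A => D a) h3
      simp only [Derivation.smul_apply, smul_eq_mul, Derivation.coe_zero, Pi.zero_apply] at this
      exact (mul_eq_zero.mp this).resolve_left hq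
    have h5 := congrArg (fun D : Derivation ℂ A A => D F) h3
    simp only [Derivation.smul_apply, smul_eq_mul, hF, mul_zero] at h5
    exact (mul_eq_zero.mp h5.symm).resolve_left h4

/-- If there is a `w` transversal to `σ` then the multiplier ring is large. -/
theorem exists_mul_mem_mulAlg (hσ : IsLND σ) (h0 : σ ≠ 0) (hL : ∀ f, σ (σ f) = 0 → f • σ ∈ L)
    {w : Derivation ℂ A A} (hw : ∀ f, w f = 0 → f • w ∈ L) {a v : A} (ha : σ a = 0)
    (hwa : w a ≠ 0) (hv : w v = 0) (hσv : σ v ≠ 0) (x : A) :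
    ∃ r ∈ mulAlg L σ, r ≠ 0 ∧ r * x ∈ mulAlg L σ := by
  obtain ⟨h, hq, hh⟩ := exists_slice hσ h0
  set c := (σ h) ^ 2 * (w a) ^ 2 * (σ v) ^ 2 with hc
  have hc0 : c ≠ 0 :=
    mul_ne_zero (mul_ne_zero (pow_ne_zero _ hq) (pow_ne_zero _ hwa)) (pow_ne_zero _ hσv)
  have hcB : ∀ F, w F = 0 → c * F ∈ mulAlg L σ := fun F hF => smul_ker_mem hL hh hw ha hv hF
  have h1 : ∃ b ∈ mulAlg L σ, σ b ≠ 0 := by
    by_contra hcon
    push Not at hcon
    have h2 : σ c = 0 := by
      apply hcon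
      have := hcB 1 (by simp)
      simpa using this
    have h3 : σ (c * v) = 0 := hcon _ (hcB v hv)
    rw [Derivation.leibniz, h2, smul_zero, add_zero, smul_eq_mul] at h3
    exact (mul_ne_zero hc0 hσv) h3
  obtain ⟨b, hbB, hb⟩ := h1
  obtain ⟨g, hgB, hg1, hg2⟩ := exists_slice_mem hσ (B := (mulAlg L σ : Set A))
    (fun b hb => sigma_mem_mulAlg hL hb) hbB hb
  obtain ⟨r, hr1, hr2, hr3⟩ := exists_mul_mem hσ (B := mulAlg L σ)
    (fun a ha => ker_le_mulAlg ha) hgB hg1 hg2 x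
  exact ⟨r, ker_le_mulAlg hr1, hr2, hr3⟩

end Pool.Agent.H29.Flex
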