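import Pool.Agent.H29.Flex.Mod
import Pool.Agent.H29.Flex.Core
import Pool.Agent.H29.Flex.Almost

/-!
# The criterion
-/

namespace Pool.Agent.H29.Flex

variable {A : Type*} [CommRing A] [Algebra ℂ A]

theorem smul_mem_completeLie_of_sq {σ : Derivation ℂ A A} (hσ : IsLND σ) (f : A)
    (hf : σ (σ f) = 0) : f • σ ∈ completeLie A :=
  LieSubalgebra.subset_lieSpan (isComplete_smul_of_sq hσ hf)

theorem smul_mem_completeLie {w : Derivation ℂ A A} (hw : IsComplete w) (f : A)
    (hf : w f = 0) : f • w ∈ completeLie A :=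
  LieSubalgebra.subset_lieSpan (hw.smul hf)

theorem row_ne_zero {n : ℕ} (δ : Fin n → Derivation ℂ A A) (a : Fin n → A)
    (hJ : (Matrix.of fun i j => δ i (a j)).det ≠ 0) (i : Fin n) : δ i ≠ 0 := by
  intro h0
  apply hJ
  apply Matrix.det_eq_zero_of_row_eq_zero i
  intro j
  rw [Matrix.of_apply, h0]
  rfl

theorem exists_ker_ne [IsDomain A] {n : ℕ} {δ : Fin n → Derivation ℂ A A} {a : Fin n → A}
    (hδ : ∀ i, IsLND (δ i)) (hJ : (Matrix.of fun i j => δ i (a j)).det ≠ 0) {i j : Fin n}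
    (hij : i ≠ j) : ∃ u, δ i u = 0 ∧ δ j u ≠ 0 := by
  classical
  by_contra hcon
  push Not at hcon
  obtain ⟨h, hq, hh⟩ := exists_slice (hδ i) (row_ne_zero δ a hJ i)
  have h1 := smul_eq_smul_of_ker_le (hδ i) hcon hq hh
  apply hJ
  rw [← Matrix.exists_vecMul_eq_zero_iff]
  refine ⟨Pi.single j (δ i h) - Pi.single i (δ j h), ?_, ?_⟩
  · intro h2
    have h3 := congrFun h2 j
    rw [Pi.sub_apply, Pi.single_eq_same, Pi.single_eq_of_ne hij.symm, sub_zero] at h3
    exact hq h3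
  · rw [Matrix.sub_vecMul, Matrix.single_vecMul, Matrix.single_vecMul, sub_eq_zero]
    ext k
    have h4 := congrArg (fun D : Derivation ℂ A A => D (a k)) h1
    simpa using h4

/-- On a flexible manifold of dimension at least two there are transversal locally nilpotent
derivations. -/
theorem exists_transversal {n : ℕ} (hn : 2 ≤ n) (hA : IsAffineManifold A n)
    (hF : IsFlexible A) : ∃ (σ τ : Derivation ℂ A A) (u v : A), IsLND σ ∧ IsLND τ ∧
      σ u = 0 ∧ τ u ≠ 0 ∧ τ v = 0 ∧ σ v ≠ 0 := by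
  have := hA.isDomain
  have := hA.finiteType
  obtain ⟨x₀, -⟩ := exists_point (A := A) (I := ⊥) (by
      rw [Ne, Ideal.eq_top_iff_one, Ideal.mem_bot]; exact one_ne_zero)
  obtain ⟨δ, a, hδ, hJx⟩ := exists_jacobian (by omega) hA hF x₀
  have hJ : (Matrix.of fun i j => δ i (a j)).det ≠ 0 := by
    intro h0; rw [h0, map_zero] at hJx; exact hJx rfl
  let i : Fin n := ⟨0, by omega⟩
  let j : Fin n := ⟨1, by omega⟩
  have hij : i ≠ j := by
    intro h
    have := congrArg Fin.val h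
    simp [i, j] at this
  obtain ⟨u, hu1, hu2⟩ := exists_ker_ne hδ hJ hij
  obtain ⟨v, hv1, hv2⟩ := exists_ker_ne hδ hJ hij.symm
  exact ⟨δ i, δ j, u, v, hδ i, hδ j, hu1, hu2, hv1, hv2⟩

/-- **Criterion.** -/
theorem hasADP_of_integral {n : ℕ} (hn : 2 ≤ n) (hA : IsAffineManifold A n)
    (hF : IsFlexible A)
    (hint : ∀ a : A, IsIntegral (Algebra.adjoin ℂ (firstIntegrals A)) a) : HasADP A := by
  have := hA.isDomain
  have := hA.finiteType
  obtain ⟨σ, τ, u, v, hσ, hτ, hu1, hu2, hv1, hv2⟩ := exists_transversal hn hA hF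
  have h0 : σ ≠ 0 := by rintro rfl; exact hv2 rfl
  set L := completeLie A with hLdef
  have hL : ∀ f, σ (σ f) = 0 → f • σ ∈ L := fun f hf => smul_mem_completeLie_of_sq hσ f hf
  have hLτ : ∀ f, τ f = 0 → f • τ ∈ L := fun f hf => smul_mem_completeLie hτ.isComplete f hf
  have hB := exists_mul_mem_mulAlg hσ h0 hL hLτ hu1 hu2 hv1 hv2
  obtain ⟨c, hc0, hc⟩ := exists_total_conductor (B := mulAlg L σ) hB (G := firstIntegrals A)
    (by
      rintro f ⟨w, hw, hw0, hwf⟩
      obtain ⟨c, hc0, hc⟩ := exists_conductor hσ h0 hL hw0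
        (fun f hf => smul_mem_completeLie hw f hf)
      refine ⟨c, hc0, fun k => hc _ ?_⟩
      rw [Derivation.leibniz_pow, hwf]
      simp) hint
  obtain ⟨h, hq, hh⟩ := exists_slice hσ h0
  have hs : τ u ∈ spn L σ := mem_spn' hu1 (by simpa using hLτ 1 (by simp))
  refine eq_top_of_coreSub (by omega) hA hF
    (fun σ hσ f hf => smul_mem_completeLie_of_sq hσ f hf) (m := (σ h * (c * τ u)) • σ) ?_ ?_
  · intro a
    have h1 := spn_smul_mem hL hh (hc a _ hs)
    rw [smul_smul]
    convert h1 using 2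
    ring
  · intro h2
    obtain ⟨b, hb⟩ := derivation_ne_zero h0
    have h3 := congrArg (fun D : Derivation ℂ A A => D b) h2
    simp only [Derivation.smul_apply, smul_eq_mul, Derivation.coe_zero, Pi.zero_apply] at h3
    exact mul_ne_zero (mul_ne_zero hq (mul_ne_zero hc0 hu2)) hb h3

end Pool.Agent.H29.Flex
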