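import Mathlib

/-!
# Flexible affine manifolds and the algebraic density property

An affine algebraic variety `X` over `ℂ` is represented by its coordinate ring `A = ℂ[X]`.
-/

namespace Pool.Agent.H29.Flex

variable {A : Type*} [CommRing A] [Algebra ℂ A]

/-- The (Zariski) tangent space of `Spec A` at the point `x : A →ₐ[ℂ] ℂ`: the point derivations. -/
def tangentSpace (x : A →ₐ[ℂ] ℂ) : Submodule ℂ (A →ₗ[ℂ] ℂ) where
  carrier := {D | ∀ a b, D (a * b) = x a * D b + x b * D a}
  zero_mem' := by intro a b; simp
  add_mem' := by
    intro D E hD hE a b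
    simp only [Set.mem_ofPred_eq] at hD hE
    simp only [LinearMap.add_apply, hD, hE]
    ring
  smul_mem' := by
    intro c D hD a b
    simp only [Set.mem_ofPred_eq] at hD
    simp only [LinearMap.smul_apply, hD, smul_eq_mul]
    ring

/-- A locally nilpotent derivation (equivalently, an algebraic action of `(ℂ, +)`). -/
def IsLND (σ : Derivation ℂ A A) : Prop := ∀ a, ∃ n : ℕ, σ^[n] a = 0

/-- The tangent vector of the vector field `σ` at the point `x`. -/
def valueAt (x : A →ₐ[ℂ] ℂ) (σ : Derivation ℂ A A) : A →ₗ[ℂ] ℂ :=
  x.toLinearMap ∘ₗ (σ : A →ₗ[ℂ] A)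

/-- A vector field `V` is complete: through every point there is an integral curve defined for
all complex times.  (`γ t : A →ₐ[ℂ] ℂ` is a point of the variety.) -/
def IsComplete (V : Derivation ℂ A A) : Prop :=
  ∀ x : A →ₐ[ℂ] ℂ, ∃ γ : ℂ → (A →ₐ[ℂ] ℂ), γ 0 = x ∧
    ∀ (a : A) (t : ℂ), HasDerivAt (fun s => γ s a) (γ t (V a)) t

variable (A)

/-- `A` is the coordinate ring of a smooth irreducible affine variety over `ℂ` of dimension `d`:
a finitely generated domain of transcendence degree `d` all of whose tangent spaces have
dimension `d`. -/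
structure IsAffineManifold (d : ℕ) : Prop where
  isDomain : IsDomain A
  finiteType : Algebra.FiniteType ℂ A
  trdeg : Algebra.trdeg ℂ A = d
  smooth : ∀ x : A →ₐ[ℂ] ℂ, Module.finrank ℂ (tangentSpace x) = d

/-- The variety is flexible: at every point the tangent space is spanned by the values of
locally nilpotent derivations. -/
def IsFlexible : Prop :=
  ∀ x : A →ₐ[ℂ] ℂ, tangentSpace x ≤
    Submodule.span ℂ {D | ∃ σ : Derivation ℂ A A, IsLND σ ∧ D = valueAt x σ}

/-- The Lie algebra generated by the complete algebraic vector fields. -/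
noncomputable def completeLie : LieSubalgebra ℂ (Derivation ℂ A A) :=
  LieSubalgebra.lieSpan ℂ (Derivation ℂ A A) {V | IsComplete V}

/-- The algebraic density property: the Lie algebra generated by the complete algebraic vector
fields is the Lie algebra of all algebraic vector fields. -/
def HasADP : Prop := completeLie A = ⊤

/-- The set of first integrals of nonzero complete vector fields. -/
def firstIntegrals : Set A :=
  {f | ∃ w : Derivation ℂ A A, IsComplete w ∧ w ≠ 0 ∧ w f = 0}

end Pool.Agent.H29.Flex
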