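import Mathlib

/-!
# Gluing integrality over a factorial ring
-/

namespace Pool.Agent.H29.Flex

open Polynomial

/-- If `m a` and `m' a` are integral over a factorial domain, `m` and `m'` without common
factor, then `a` is integral. -/
theorem isIntegral_of_isRelPrime {R A : Type*} [CommRing R] [IsDomain R]
    [UniqueFactorizationMonoid R] [CommRing A] [IsDomain A] [Algebra R A]
    [Module.IsTorsionFree R A] {a : A} {m m' : R} (hm : m ≠ 0) (hm' : m' ≠ 0)
    (hrel : IsRelPrime m m') (h1 : IsIntegral R (m • a)) (h2 : IsIntegral R (m' • a)) :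
    IsIntegral R a := by
  set h := minpoly R (m • a) with hh
  set h' := minpoly R (m' • a) with hh'
  have key : h.scaleRoots m' = h'.scaleRoots m := by
    rw [hh, hh', ← IsIntegrallyClosed.minpoly_smul hm' h1, ← IsIntegrallyClosed.minpoly_smul hm h2,
      smul_smul, smul_smul, mul_comm]
  have hd : h.natDegree = h'.natDegree := by
    have := congrArg natDegree key
    rwa [natDegree_scaleRoots, natDegree_scaleRoots] at this
  have hdvd : ∀ i, ∃ g, h.coeff i = g * m ^ (h.natDegree - i) := by
    intro i
    have h3 := congrArg (fun p => p.coeff i) key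
    simp only [coeff_scaleRoots] at h3
    rw [← hd] at h3
    have h4 : m ^ (h.natDegree - i) ∣ h.coeff i * m' ^ (h.natDegree - i) :=
      ⟨h'.coeff i, by rw [h3, mul_comm]⟩
    obtain ⟨g, hg⟩ := (hrel.pow).dvd_of_dvd_mul_right h4
    exact ⟨g, by rw [hg, mul_comm]⟩
  choose g hg using hdvd
  have hmon : h.Monic := minpoly.monic h1
  set d := h.natDegree with hdd
  set q : R[X] := X ^ d + ∑ i ∈ Finset.range d, C (g i) * X ^ i with hq
  refine ⟨q, ?_, ?_⟩
  · apply monic_X_pow_add
    rw [Finset.sum_range]
    exact degree_sum_fin_lt fun i => g i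
  · have h5 : aeval (m • a) h = 0 := minpoly.aeval R _
    have h6 : aeval (m • a) h = (algebraMap R A m) ^ d * aeval a q := by
      rw [aeval_eq_sum_range, ← hdd, Finset.sum_range_succ, hq, map_add, map_sum, mul_add,
        Finset.mul_sum, add_comm]
      congr 1
      · rw [hdd, hmon.coeff_natDegree, one_smul, Algebra.smul_def, mul_pow, map_pow, aeval_X]
      · apply Finset.sum_congr rfl
        intro i hi
        have hi' := Finset.mem_range.mp hi
        rw [hg i, Algebra.smul_def, Algebra.smul_def, mul_pow, map_mul, map_pow, map_mul, aeval_C,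
          map_pow, aeval_X]
        have h7 : (algebraMap R A m) ^ d = (algebraMap R A m) ^ (d - i) * (algebraMap R A m) ^ i := by
          rw [← pow_add]; congr 1; omega
        rw [h7]
        ring
    rw [h5] at h6
    have h8 : (algebraMap R A m) ^ d ≠ 0 := by
      apply pow_ne_zero
      rw [Ne, FaithfulSMul.algebraMap_eq_zero_iff]
      exact hm
    have h9 := (mul_eq_zero.mp h6.symm).resolve_left h8
    rw [← h9]
    rfl

/-- Polynomials in different variables are relatively prime. -/
theorem isRelPrime_C_map {p q : ℂ[X]} (hp : p ≠ 0) (hq : q ≠ 0) :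
    IsRelPrime (C p : ℂ[X][X]) (q.map C) := by
  intro d hd1 hd2
  have h1 : d.natDegree = 0 := by
    have := natDegree_le_of_dvd hd1 (by rwa [Ne, C_eq_zero])
    rw [natDegree_C] at this
    omega
  obtain ⟨c, rfl⟩ := natDegree_eq_zero.mp h1
  rw [C_dvd_iff_dvd_coeff] at hd2
  have h2 := hd2 q.natDegree
  rw [coeff_map] at h2
  have h3 : IsUnit (C (q.coeff q.natDegree)) := by
    rw [isUnit_C, isUnit_iff_ne_zero]
    exact leadingCoeff_ne_zero.mpr hq
  exact (isUnit_of_dvd_unit h2 h3).map C

end Pool.Agent.H29.Flex
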