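import Pool.Agent.H29.Flex.Lnd

/-!
# Jacobians and algebraic independence
-/

namespace Pool.Agent.H29.Flex

open MvPolynomial

variable {A : Type*} [CommRing A] [Algebra ℂ A]

/-- Chain rule. -/
theorem derivation_aeval {n : ℕ} (δ : Derivation ℂ A A) (a : Fin n → A)
    (G : MvPolynomial (Fin n) ℂ) :
    δ (aeval a G) = ∑ j, aeval a (pderiv j G) * δ (a j) := by
  induction G using MvPolynomial.induction_on with
  | C c => simp
  | add p q hp hq => simp only [map_add, hp, hq, add_mul, Finset.sum_add_distrib]
  | mul_X p i hp =>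
    simp only [map_mul, Derivation.leibniz, hp, aeval_X, smul_eq_mul, map_add, pderiv_X,
      Finset.mul_sum, add_mul, Finset.sum_add_distrib]
    congr 1
    · rw [Finset.sum_eq_single i]
      · simp
      · intro j _ hj
        simp [hj.symm]
      · simp
    · apply Finset.sum_congr rfl
      intro j _
      ring

theorem totalDegree_pderiv_le {n : ℕ} (G : MvPolynomial (Fin n) ℂ) (j : Fin n) :
    (pderiv j G).totalDegree ≤ G.totalDegree - 1 := by
  apply Finset.sup_le
  intro m hm
  rw [mem_support_iff, coeff_pderiv] at hm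
  have h1 : m + Finsupp.single j 1 ∈ G.support := by
    rw [mem_support_iff]
    exact left_ne_zero_of_mul hm
  have h2 := le_totalDegree h1
  rw [Finsupp.sum_add_index' (fun _ => rfl) (fun _ _ _ => rfl), Finsupp.sum_single_index rfl] at h2
  omega

theorem eq_C_of_pderiv_eq_zero {n : ℕ} {G : MvPolynomial (Fin n) ℂ}
    (h : ∀ j, pderiv j G = 0) : G = C (coeff 0 G) := by
  classical
  ext m
  rw [coeff_C]
  split_ifs with hm
  · rw [← hm]
  · have : ∃ i, m i ≠ 0 := by
      by_contra hcon
      push Not at hcon
      exact hm (Finsupp.ext fun i => (hcon i).symm)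
    obtain ⟨i, hi⟩ := this
    have h1 := congrArg (coeff (m - Finsupp.single i 1)) (h i)
    rw [coeff_pderiv, coeff_zero] at h1
    have h2 : m - Finsupp.single i 1 + Finsupp.single i 1 = m := by
      apply tsub_add_cancel_of_le
      intro k
      by_cases hk : k = i
      · subst hk
        simpa using Nat.one_le_iff_ne_zero.mpr hi
      · simp [Ne.symm hk]
    rw [h2] at h1
    refine (mul_eq_zero.mp h1).resolve_right ?_
    generalize ((m - Finsupp.single i 1 : Fin n →₀ ℕ) : Fin n → ℕ) i = k
    exact_mod_cast Nat.succ_ne_zero k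

/-- The Jacobian lemma. -/
theorem jacobian_lemma {n : ℕ} {P : Ideal A} (hP : (1 : A) ∉ P)
    (δ : Fin n → Derivation ℂ A A) (hδ : ∀ i, ∀ g ∈ P, δ i g ∈ P) (a : Fin n → A)
    (hJ : ∀ g, (Matrix.of fun i j => δ i (a j)).det * g ∈ P → g ∈ P)
    (G : MvPolynomial (Fin n) ℂ) (hG : aeval a G ∈ P) : G = 0 := by
  have key : ∀ d : ℕ, ∀ G : MvPolynomial (Fin n) ℂ, G.totalDegree ≤ d → aeval a G ∈ P → G = 0 := by
    have hconst : ∀ c : ℂ, aeval a (C c : MvPolynomial (Fin n) ℂ) ∈ P → c = 0 := by
      intro c hc
      by_contra hc0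
      apply hP
      have h1 := P.mul_mem_left (algebraMap ℂ A c⁻¹) hc
      rwa [algHom_C, ← map_mul, inv_mul_cancel₀ hc0, map_one] at h1
    intro d
    induction d with
    | zero =>
      intro G hd hG
      have h1 : G = C (coeff 0 G) := totalDegree_eq_zero_iff_eq_C.mp (Nat.le_zero.mp hd)
      rw [h1] at hG ⊢
      rw [hconst _ hG, C_0]
    | succ d ih =>
      intro G hd hG
      set M := Matrix.of fun i j => δ i (a j) with hM
      set g : Fin n → A := fun j => aeval a (pderiv j G) with hg
      have h1 : ∀ i, M.mulVec g i ∈ P := by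
        intro i
        have h2 := hδ i _ hG
        rw [derivation_aeval] at h2
        rw [Matrix.mulVec, dotProduct]
        convert h2 using 2 with j
        rw [hM, hg, Matrix.of_apply, mul_comm]
      have h3 : ∀ j, M.det * g j ∈ P := by
        intro j
        have h4 : M.adjugate.mulVec (M.mulVec g) = M.det • g := by
          rw [Matrix.mulVec_mulVec, Matrix.adjugate_mul, Matrix.smul_mulVec, Matrix.one_mulVec]
        have h5 := congrFun h4 j
        rw [Pi.smul_apply, smul_eq_mul] at h5
        rw [← h5, Matrix.mulVec, dotProduct]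
        exact Ideal.sum_mem _ fun i _ => P.mul_mem_left _ (h1 i)
      have h6 : ∀ j, pderiv j G = 0 := by
        intro j
        apply ih
        · have := totalDegree_pderiv_le G j
          omega
        · exact hJ _ (h3 j)
      have h7 := eq_C_of_pderiv_eq_zero h6
      rw [h7] at hG ⊢
      rw [hconst _ hG, C_0]
  exact key _ G le_rfl hG

variable [IsDomain A]

theorem algebraicIndependent_of_jacobian {n : ℕ} (δ : Fin n → Derivation ℂ A A) (a : Fin n → A)
    (hJ : (Matrix.of fun i j => δ i (a j)).det ≠ 0) : AlgebraicIndependent ℂ a := by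
  rw [algebraicIndependent_iff]
  intro G hG
  refine jacobian_lemma (P := ⊥) ?_ δ ?_ a ?_ G ?_
  · rw [Ideal.mem_bot]; exact one_ne_zero
  · intro i g hg
    rw [Ideal.mem_bot] at hg ⊢
    rw [hg, map_zero]
  · intro g hg
    rw [Ideal.mem_bot] at hg ⊢
    exact (mul_eq_zero.mp hg).resolve_left hJ
  · rw [Ideal.mem_bot]; exact hG

theorem isAlgebraic_of_algebraicIndependent {n : ℕ} {a : Fin n → A}
    (ha : AlgebraicIndependent ℂ a) (hn : Algebra.trdeg ℂ A = n) :
    Algebra.IsAlgebraic (Algebra.adjoin ℂ (Set.range a)) A := by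
  have h1 : IsTranscendenceBasis ℂ a := by
    apply ha.isTranscendenceBasis_of_lift_trdeg_le_of_finite
    rw [hn]
    simp
  exact h1.isAlgebraic

/-- Every nonzero element divides a nonzero polynomial in a transcendence basis. -/
theorem exists_dvd_aeval {n : ℕ} {a : Fin n → A} (ha : AlgebraicIndependent ℂ a)
    (hn : Algebra.trdeg ℂ A = n) {g : A} (hg : g ≠ 0) :
    ∃ G : MvPolynomial (Fin n) ℂ, G ≠ 0 ∧ g ∣ aeval a G := by
  have h1 := isAlgebraic_of_algebraicIndependent ha hn
  obtain ⟨r, hr0, hr⟩ := (h1.isAlgebraic g).exists_nonzero_dvd (mem_nonZeroDivisors_of_ne_zero hg)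
  have h2 : (r : A) ∈ (aeval a : MvPolynomial (Fin n) ℂ →ₐ[ℂ] A).range := by
    rw [← Algebra.adjoin_range_eq_range_aeval]
    exact r.2
  obtain ⟨G, hG⟩ := h2
  refine ⟨G, ?_, ?_⟩
  · rintro rfl
    apply hr0
    rw [map_zero] at hG
    exact Subtype.ext hG.symm
  · have h3 : (aeval a) G = (algebraMap (Algebra.adjoin ℂ (Set.range a)) A) r := hG
    rw [h3]
    exact hr

/-- A derivation that kills a subalgebra over which `x` is algebraic kills `x`. -/
theorem derivation_eq_zero_of_isAlgebraic (D : Derivation ℂ A A) (R : Subalgebra ℂ A)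
    (hR : ∀ r ∈ R, D r = 0) {x : A} (hx : IsAlgebraic R x) : D x = 0 := by
  let D' : Derivation R A A :=
    { toFun := D
      map_add' := fun a b => map_add D a b
      map_smul' := by
        intro r b
        have : r • b = (r : A) * b := rfl
        rw [this, Derivation.leibniz, hR r r.2, smul_zero, add_zero]
        rfl
      map_one_eq_zero' := D.map_one_eq_zero
      leibniz' := D.leibniz }
  have : CharZero R := charZero_of_injective_algebraMap (FaithfulSMul.algebraMap_injective ℂ R)
  have key : ∀ d : ℕ, ∀ p : Polynomial R, p.natDegree ≤ d → p ≠ 0 → Polynomial.aeval x p = 0 →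
      D x = 0 := by
    intro d
    induction d with
    | zero =>
      intro p hd hp hpx
      have h1 := Polynomial.eq_C_of_natDegree_eq_zero (Nat.le_zero.mp hd)
      rw [h1, Polynomial.aeval_C] at hpx
      exfalso
      apply hp
      rw [h1]
      have h2 : p.coeff 0 = 0 := Subtype.ext hpx
      rw [h2, Polynomial.C_0]
    | succ d ih =>
      intro p hd hp hpx
      have h1 := D'.map_aeval p x
      rw [hpx, map_zero, smul_eq_mul] at h1
      rcases mul_eq_zero.mp h1.symm with h2 | h2
      · by_cases h3 : Polynomial.derivative p = 0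
        · have h4 := Polynomial.eq_C_of_derivative_eq_zero h3
          apply ih p _ hp hpx
          rw [h4, Polynomial.natDegree_C]
          exact Nat.zero_le _
        · refine ih _ ?_ h3 h2
          have := Polynomial.natDegree_derivative_le p
          omega
      · exact h2
  obtain ⟨p, hp, hpx⟩ := hx
  exact key _ p le_rfl hp hpx

end Pool.Agent.H29.Flex
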