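import Pool.Agent.H29.Flex.Complete

/-!
# Locally nilpotent derivations: local slices
-/

namespace Pool.Agent.H29.Flex

variable {A : Type*} [CommRing A] [Algebra ℂ A]

/-- The kernel of a derivation as a subalgebra. -/
def kerAlg (σ : Derivation ℂ A A) : Subalgebra ℂ A where
  carrier := {a | σ a = 0}
  mul_mem' := by
    intro a b ha hb
    simp only [Set.mem_ofPred_eq] at ha hb ⊢
    rw [Derivation.leibniz, ha, hb]; simp
  add_mem' := by
    intro a b ha hb
    simp only [Set.mem_ofPred_eq] at ha hb ⊢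
    rw [map_add, ha, hb, add_zero]
  algebraMap_mem' := by
    intro c
    exact σ.map_algebraMap c

theorem mem_kerAlg {σ : Derivation ℂ A A} {a : A} : a ∈ kerAlg σ ↔ σ a = 0 := Iff.rfl

theorem exists_last {σ : Derivation ℂ A A} (hσ : IsLND σ) {a : A} (ha : σ a ≠ 0) :
    ∃ m, σ^[m + 1] a ≠ 0 ∧ σ^[m + 2] a = 0 := by
  classical
  have hf := hσ a
  have h1 := Nat.find_spec hf
  have h2 : ∀ m, m < Nat.find hf → σ^[m] a ≠ 0 := fun m hm => Nat.find_min hf hm
  rcases hN : Nat.find hf with _ | _ | m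
  · rw [hN] at h1
    have : a = 0 := by simpa using h1
    rw [this, map_zero] at ha
    exact absurd rfl ha
  · rw [hN] at h1
    exact absurd (by simpa using h1) ha
  · exact ⟨m, h2 _ (by omega), by rw [hN] at h1; exact h1⟩

theorem iterate_mem {σ : Derivation ℂ A A} {B : Set A} (hB : ∀ b ∈ B, σ b ∈ B) {a : A}
    (ha : a ∈ B) (n : ℕ) : σ^[n] a ∈ B := by
  induction n with
  | zero => exact ha
  | succ n ih => rw [Function.iterate_succ_apply']; exact hB _ ih

/-- Existence of a local slice in a `σ`-stable set. -/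
theorem exists_slice_mem {σ : Derivation ℂ A A} (hσ : IsLND σ) {B : Set A}
    (hB : ∀ b ∈ B, σ b ∈ B) {a : A} (haB : a ∈ B) (ha : σ a ≠ 0) :
    ∃ h ∈ B, σ h ≠ 0 ∧ σ (σ h) = 0 := by
  obtain ⟨m, h1, h2⟩ := exists_last hσ ha
  refine ⟨σ^[m] a, iterate_mem hB haB m, ?_, ?_⟩
  · rw [← Function.iterate_succ_apply' σ]; exact h1
  · rw [← Function.iterate_succ_apply' σ, ← Function.iterate_succ_apply' σ]; exact h2

theorem exists_slice {σ : Derivation ℂ A A} (hσ : IsLND σ) (h0 : σ ≠ 0) :
    ∃ h, σ h ≠ 0 ∧ σ (σ h) = 0 := by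
  have : ∃ a, σ a ≠ 0 := by
    by_contra hcon
    push Not at hcon
    exact h0 (Derivation.ext hcon)
  obtain ⟨a, ha⟩ := this
  obtain ⟨h, -, h1, h2⟩ := exists_slice_mem hσ (B := Set.univ) (by simp) (Set.mem_univ a) ha
  exact ⟨h, h1, h2⟩

theorem iterate_pow_slice {σ : Derivation ℂ A A} {h : A} (hh : σ (σ h) = 0) (d k : ℕ) :
    σ^[k] (h ^ d) = (d.descFactorial k : A) * (σ h) ^ k * h ^ (d - k) := by
  induction k with
  | zero => simp
  | succ k ih =>
    rw [Function.iterate_succ_apply', ih, mul_assoc, Derivation.leibniz, Derivation.leibniz,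
      Derivation.leibniz_pow, Derivation.leibniz_pow, hh, Derivation.map_natCast,
      Nat.descFactorial_succ, show d - (k + 1) = d - k - 1 from by omega]
    simp only [smul_eq_mul, nsmul_eq_mul]
    push_cast
    ring

/-- The reduction lemma: every element is, up to a nonzero invariant factor, in any subalgebra
containing the invariants and a local slice. -/
theorem exists_mul_mem [IsDomain A] {σ : Derivation ℂ A A} (hσ : IsLND σ) {B : Subalgebra ℂ A}
    (hK : ∀ a, σ a = 0 → a ∈ B) {h : A} (hhB : h ∈ B) (hq : σ h ≠ 0) (hqq : σ (σ h) = 0)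
    (a : A) : ∃ r, σ r = 0 ∧ r ≠ 0 ∧ r * a ∈ B := by
  have key : ∀ d : ℕ, ∀ a, σ^[d] a = 0 → ∃ r, σ r = 0 ∧ r ≠ 0 ∧ r * a ∈ B := by
    intro d
    induction d with
    | zero =>
      intro a ha
      have ha' : a = 0 := by simpa using ha
      exact ⟨1, by simp, one_ne_zero, by rw [ha', mul_zero]; exact B.zero_mem⟩
    | succ d ih =>
      intro a ha
      set b := σ^[d] a with hb
      have hbK : σ b = 0 := by rw [hb, ← Function.iterate_succ_apply' σ]; exact ha
      have hfac : (d.factorial : A) ≠ 0 := by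
        have : (d.factorial : A) = algebraMap ℂ A (d.factorial : ℂ) := by simp
        rw [this]
        exact fun h0 => Nat.cast_ne_zero.mpr (Nat.factorial_ne_zero d)
          ((map_eq_zero_iff _ (FaithfulSMul.algebraMap_injective ℂ A)).mp h0)
      set c : A := (d.factorial : A) * (σ h) ^ d with hc
      have hcK : σ c = 0 := by
        rw [hc, Derivation.leibniz, Derivation.map_natCast, Derivation.leibniz_pow, hqq]
        simp
      have hc0 : c ≠ 0 := mul_ne_zero hfac (pow_ne_zero _ hq)
      have h1 : σ^[d] (c * a - b * h ^ d) = 0 := by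
        rw [iterate_sub', iterate_smul_of_ker hcK, iterate_smul_of_ker hbK,
          iterate_pow_slice hqq, Nat.descFactorial_self, Nat.sub_self, pow_zero, mul_one, ← hb,
          ← hc]
        ring
      obtain ⟨r, hr1, hr2, hr3⟩ := ih _ h1
      refine ⟨r * c, ?_, mul_ne_zero hr2 hc0, ?_⟩
      · rw [Derivation.leibniz, hr1, hcK]; simp
      · have h2 : r * c * a = r * (c * a - b * h ^ d) + r * (b * h ^ d) := by ring
        rw [h2]
        exact B.add_mem hr3 (B.mul_mem (hK _ hr1) (B.mul_mem (hK _ hbK) (B.pow_mem hhB d)))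
  obtain ⟨d, hd⟩ := hσ a
  exact key d a hd

/-- A derivation killing the kernel of a locally nilpotent derivation is proportional to it. -/
theorem smul_eq_smul_of_ker_le [IsDomain A] {σ w : Derivation ℂ A A} (hσ : IsLND σ)
    (hw : ∀ a, σ a = 0 → w a = 0) {h : A} (hq : σ h ≠ 0) (hqq : σ (σ h) = 0) :
    (σ h) • w = (w h) • σ := by
  set E : Derivation ℂ A A := (σ h) • w - (w h) • σ with hE
  have h1 : ∀ a, σ a = 0 → E a = 0 := by
    intro a ha
    rw [hE]
    simp [hw a ha, ha]
  have h2 : E h = 0 := by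
    rw [hE]
    simp [mul_comm]
  have h3 : E = 0 := by
    apply Derivation.ext
    intro a
    obtain ⟨r, hr1, hr2, hr3⟩ := exists_mul_mem hσ (B := kerAlg E) h1 (h := h) h2 hq hqq a
    rw [mem_kerAlg, Derivation.leibniz, h1 r hr1, smul_zero, add_zero, smul_eq_mul] at hr3
    exact (mul_eq_zero.mp hr3).resolve_left hr2
  rw [hE, sub_eq_zero] at h3
  exact h3

end Pool.Agent.H29.Flex
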