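import Pool.Agent.H29.Flex.Jac

/-!
# From a nonzero submodule to the whole Lie algebra
-/

namespace Pool.Agent.H29.Flex

open MvPolynomial

variable {A : Type*} [CommRing A] [Algebra ℂ A]

theorem valueAt_mem_tangentSpace (x : A →ₐ[ℂ] ℂ) (σ : Derivation ℂ A A) :
    valueAt x σ ∈ tangentSpace x := by
  intro a b
  simp only [valueAt, LinearMap.comp_apply, Derivation.coeFn_coe, AlgHom.toLinearMap_apply,
    Derivation.leibniz, smul_eq_mul, map_add, map_mul]

theorem exists_dual {n : ℕ} {V : Type*} [AddCommGroup V] [Module ℂ V] (f : Fin n → V →ₗ[ℂ] ℂ)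
    (hf : LinearIndependent ℂ f) : ∃ a : Fin n → V, ∀ i j, f i (a j) = if i = j then 1 else 0 := by
  classical
  set T : V →ₗ[ℂ] (Fin n → ℂ) := LinearMap.pi f with hT
  have hsurj : LinearMap.range T = ⊤ := by
    by_contra hne
    obtain ⟨φ, hφ0, hφ⟩ := Submodule.exists_le_ker_of_lt_top _ (lt_top_iff_ne_top.mpr hne)
    apply hφ0
    have h1 : ∑ i, φ (Pi.single i 1) • f i = 0 := by
      ext v
      have h2 : φ (T v) = 0 := hφ (LinearMap.mem_range_self T v)
      rw [LinearMap.pi_apply_eq_sum_univ φ (T v)] at h2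
      simp only [LinearMap.coe_sum, Finset.sum_apply, LinearMap.smul_apply, LinearMap.zero_apply]
      rw [← h2]
      apply Finset.sum_congr rfl
      intro i _
      rw [smul_eq_mul, smul_eq_mul, mul_comm]
      congr 2
      ext j
      simp [Pi.single_apply, eq_comm]
    have h3 := Fintype.linearIndependent_iff.mp hf _ h1
    refine LinearMap.pi_ext' fun i => LinearMap.ext_ring ?_
    simpa using h3 i
  have h4 : ∀ j : Fin n, ∃ v, T v = Pi.single j 1 := fun j =>
    LinearMap.range_eq_top.mp hsurj _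
  choose a ha using h4
  refine ⟨a, fun i j => ?_⟩
  have := congrFun (ha j) i
  rw [hT, LinearMap.pi_apply, Pi.single_apply] at this
  exact this

/-- At every point of a flexible manifold there are locally nilpotent derivations and functions
with nonzero Jacobian. -/
theorem exists_jacobian {n : ℕ} (hn : 0 < n) (hA : IsAffineManifold A n) (hF : IsFlexible A)
    (x : A →ₐ[ℂ] ℂ) : ∃ (δ : Fin n → Derivation ℂ A A) (a : Fin n → A), (∀ i, IsLND (δ i)) ∧
      x (Matrix.of fun i j => δ i (a j)).det ≠ 0 := by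
  set s : Set (A →ₗ[ℂ] ℂ) := {D | ∃ σ : Derivation ℂ A A, IsLND σ ∧ D = valueAt x σ} with hs
  have h1 : Submodule.span ℂ s = tangentSpace x := by
    apply le_antisymm
    · rw [Submodule.span_le]
      rintro D ⟨σ, -, rfl⟩
      exact valueAt_mem_tangentSpace x σ
    · exact hF x
  have h2 : Module.finrank ℂ (Submodule.span ℂ s) = n := by rw [h1]; exact hA.smooth x
  have : FiniteDimensional ℂ (Submodule.span ℂ s) :=
    Module.finite_of_finrank_pos (by rw [h2]; exact hn)
  have h3 : ∃ f : Fin n → (A →ₗ[ℂ] ℂ), (∀ i, f i ∈ s) ∧ LinearIndependent ℂ f := by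
    obtain ⟨f, hf1, -, hf3⟩ := Submodule.exists_fun_fin_finrank_span_eq ℂ s
    refine ⟨f ∘ Fin.cast h2.symm, fun i => hf1 _, ?_⟩
    exact hf3.comp _ (Fin.cast_injective _)
  obtain ⟨f, hf1, hf2⟩ := h3
  choose δ hδ hf using hf1
  obtain ⟨a, ha⟩ := exists_dual f hf2
  refine ⟨δ, a, hδ, ?_⟩
  have h4 : x (Matrix.of fun i j => δ i (a j)).det = 1 := by
    have h5 : x (Matrix.of fun i j => δ i (a j)).det =
        ((Matrix.of fun i j => δ i (a j)).map x).det := by
      exact AlgHom.map_det x _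
    rw [h5]
    have h6 : (Matrix.of fun i j => δ i (a j)).map x = 1 := by
      ext i j
      rw [Matrix.map_apply, Matrix.of_apply, Matrix.one_apply, ← ha i j, hf i]
      rfl
    rw [h6, Matrix.det_one]
  rw [h4]
  exact one_ne_zero

/-- The largest `A`-submodule of vector fields inside `L`. -/
def coreSub (L : LieSubalgebra ℂ (Derivation ℂ A A)) : Submodule A (Derivation ℂ A A) where
  carrier := {m | ∀ a : A, a • m ∈ L}
  zero_mem' := by intro a; rw [smul_zero]; exact L.zero_mem
  add_mem' := by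
    intro m m' hm hm' a
    rw [smul_add]
    exact L.add_mem (hm a) (hm' a)
  smul_mem' := by
    intro c m hm a
    rw [smul_smul]
    exact hm _

variable {L : LieSubalgebra ℂ (Derivation ℂ A A)}

theorem mem_coreSub {m : Derivation ℂ A A} : m ∈ coreSub L ↔ ∀ a : A, a • m ∈ L := Iff.rfl

theorem lie_smul_eq (l m : Derivation ℂ A A) (a : A) : ⁅l, a • m⁆ = (l a) • m + a • ⁅l, m⁆ := by
  apply Derivation.ext
  intro b
  simp only [Derivation.commutator_apply, Derivation.smul_apply, Derivation.add_apply,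
    Derivation.leibniz, smul_eq_mul]
  ring

theorem coreSub_lie {l m : Derivation ℂ A A} (hl : l ∈ L) (hm : m ∈ coreSub L) :
    ⁅l, m⁆ ∈ coreSub L := by
  intro a
  have h1 := L.sub_mem (L.lie_mem hl (hm a)) (hm (l a))
  rw [lie_smul_eq, add_sub_cancel_left] at h1
  exact h1

theorem smul_mem_coreSub {m : Derivation ℂ A A} (hm : m ∈ coreSub L) (a : A) :
    a • m ∈ coreSub L := (coreSub L).smul_mem a hm

theorem derivation_ne_zero {m : Derivation ℂ A A} (hm : m ≠ 0) : ∃ a, m a ≠ 0 := by
  by_contra hcon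
  push Not at hcon
  exact hm (Derivation.ext hcon)

section

variable [IsDomain A]

theorem coreSub_lnd {σ : Derivation ℂ A A} (hσ : IsLND σ) (hL : ∀ f, σ (σ f) = 0 → f • σ ∈ L)
    {m : Derivation ℂ A A} (hm : m ∈ coreSub L) (hm0 : m ≠ 0) :
    ∃ y : A, y ≠ 0 ∧ y • σ ∈ coreSub L := by
  by_cases h0 : σ = 0
  · exact ⟨1, one_ne_zero, by rw [h0, smul_zero]; exact (coreSub L).zero_mem⟩
  by_cases h1 : ∀ f, σ f = 0 → m f = 0
  · obtain ⟨h, hq, hh⟩ := exists_slice hσ h0
    have h2 := smul_eq_smul_of_ker_le hσ h1 hq hh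
    refine ⟨m h, ?_, by rw [← h2]; exact smul_mem_coreSub hm _⟩
    intro h3
    obtain ⟨a, ha⟩ := derivation_ne_zero hm0
    rw [h3, zero_smul] at h2
    have h4 := congrArg (fun D : Derivation ℂ A A => D a) h2
    simp only [Derivation.smul_apply, smul_eq_mul, Derivation.coe_zero, Pi.zero_apply] at h4
    exact (mul_ne_zero hq ha) h4
  · push Not at h1
    obtain ⟨f, hf, hmf⟩ := h1
    refine ⟨m f, hmf, ?_⟩
    have hfσ : f • σ ∈ L := hL f (by rw [hf, map_zero])
    have hσL : σ ∈ L := by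
      have := hL 1 (by simp)
      simpa using this
    have h2 := (coreSub L).sub_mem (smul_mem_coreSub (coreSub_lie hσL hm) f)
      (coreSub_lie hfσ hm)
    convert h2 using 1
    apply Derivation.ext
    intro b
    simp only [Derivation.commutator_apply, Derivation.smul_apply, Derivation.sub_apply,
      Derivation.leibniz, smul_eq_mul]
    ring

end

/-- The ideal of multipliers of the whole module of derivations into `coreSub L`. -/
def coreIdeal (L : LieSubalgebra ℂ (Derivation ℂ A A)) : Ideal A where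
  carrier := {x | ∀ D : Derivation ℂ A A, x • D ∈ coreSub L}
  zero_mem' := by intro D; rw [zero_smul]; exact (coreSub L).zero_mem
  add_mem' := by
    intro x y hx hy D
    rw [add_smul]
    exact (coreSub L).add_mem (hx D) (hy D)
  smul_mem' := by
    intro c x hx D
    rw [smul_eq_mul, mul_smul]
    exact smul_mem_coreSub (hx D) c

theorem mem_coreIdeal {x : A} : x ∈ coreIdeal L ↔ ∀ D : Derivation ℂ A A, x • D ∈ coreSub L :=
  Iff.rfl

theorem coreIdeal_stable {l : Derivation ℂ A A} (hl : l ∈ L) {x : A} (hx : x ∈ coreIdeal L) :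
    l x ∈ coreIdeal L := by
  intro D
  have h1 := (coreSub L).sub_mem (coreSub_lie hl (hx D)) (hx ⁅l, D⁆)
  rw [lie_smul_eq, add_sub_cancel_right] at h1
  exact h1

/-- `J D` is a combination of the `δ i`. -/
theorem jacobian_smul [IsDomain A] {n : ℕ} (hn : Algebra.trdeg ℂ A = n)
    (δ : Fin n → Derivation ℂ A A) (a : Fin n → A)
    (hJ : (Matrix.of fun i j => δ i (a j)).det ≠ 0) (D : Derivation ℂ A A) :
    ∃ c : Fin n → A, (Matrix.of fun i j => δ i (a j)).det • D = ∑ k, c k • δ k := by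
  set M := Matrix.of fun i j => δ i (a j) with hM
  set c := Matrix.vecMul (fun j => D (a j)) M.adjugate with hc
  refine ⟨c, ?_⟩
  set E : Derivation ℂ A A := M.det • D - ∑ k, c k • δ k with hE
  have hsum : ∀ b, (∑ k, c k • δ k : Derivation ℂ A A) b = ∑ k, c k * δ k b := by
    intro b
    have h0 := congrFun (map_sum (Derivation.coeFnAddMonoidHom (R := ℂ) (A := A) (M := A))
      (fun k => c k • δ k) Finset.univ) b
    rw [Finset.sum_apply] at h0
    exact h0
  have h1 : ∀ j, E (a j) = 0 := by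
    intro j
    have h2 : Matrix.vecMul c M = M.det • fun j => D (a j) := by
      rw [hc, Matrix.vecMul_vecMul, Matrix.adjugate_mul, Matrix.vecMul_smul, Matrix.vecMul_one]
    have h3 := congrFun h2 j
    rw [Matrix.vecMul, dotProduct, Pi.smul_apply, smul_eq_mul] at h3
    rw [hE, Derivation.sub_apply, hsum, Derivation.smul_apply, smul_eq_mul, ← h3, sub_eq_zero]
    rfl
  have h4 : ∀ r ∈ Algebra.adjoin ℂ (Set.range a), E r = 0 := by
    have : Algebra.adjoin ℂ (Set.range a) ≤ kerAlg E := by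
      rw [Algebra.adjoin_le_iff]
      rintro _ ⟨j, rfl⟩
      exact h1 j
    exact fun r hr => this hr
  have h5 : E = 0 := by
    apply Derivation.ext
    intro x
    have h6 := isAlgebraic_of_algebraicIndependent (algebraicIndependent_of_jacobian δ a hJ) hn
    exact derivation_eq_zero_of_isAlgebraic E _ h4 (h6.isAlgebraic x)
  rw [hE, sub_eq_zero] at h5
  exact h5

/-- The weak Nullstellensatz. -/
theorem exists_point [Algebra.FiniteType ℂ A] {I : Ideal A} (hI : I ≠ ⊤) :
    ∃ x : A →ₐ[ℂ] ℂ, ∀ a ∈ I, x a = 0 := by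
  obtain ⟨M, hM, hIM⟩ := Ideal.exists_le_maximal I hI
  have hMm : M.IsMaximal := hM
  let : Field (A ⧸ M) := Ideal.Quotient.field M
  have h1 : Algebra.FiniteType ℂ (A ⧸ M) :=
    Algebra.FiniteType.of_surjective (Ideal.Quotient.mkₐ ℂ M) (Ideal.Quotient.mkₐ_surjective ℂ M)
  have h2 : Module.Finite ℂ (A ⧸ M) := finite_of_finite_type_of_isJacobsonRing ℂ (A ⧸ M)
  have h3 : Function.Bijective (algebraMap ℂ (A ⧸ M)) :=
    IsAlgClosed.algebraMap_bijective_of_isIntegral
  let e : ℂ ≃ₐ[ℂ] (A ⧸ M) := AlgEquiv.ofBijective (Algebra.ofId ℂ (A ⧸ M)) h3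
  refine ⟨(e.symm : (A ⧸ M) →ₐ[ℂ] ℂ).comp (Ideal.Quotient.mkₐ ℂ M), fun a ha => ?_⟩
  have h4 : Ideal.Quotient.mkₐ ℂ M a = 0 := by
    rw [Ideal.Quotient.mkₐ_eq_mk]
    exact Ideal.Quotient.eq_zero_iff_mem.mpr (hIM ha)
  rw [AlgHom.comp_apply, h4, map_zero]

/-- A flexible manifold for which the Lie algebra `L` contains a nonzero `A`-submodule. -/
theorem eq_top_of_coreSub {n : ℕ} (hn : 0 < n) (hA : IsAffineManifold A n) (hF : IsFlexible A)
    (hL : ∀ σ : Derivation ℂ A A, IsLND σ → ∀ f, σ (σ f) = 0 → f • σ ∈ L)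
    {m : Derivation ℂ A A} (hm : m ∈ coreSub L) (hm0 : m ≠ 0) : L = ⊤ := by
  classical
  have := hA.isDomain
  have := hA.finiteType
  have hLσ : ∀ σ : Derivation ℂ A A, IsLND σ → σ ∈ L := by
    intro σ hσ
    have := hL σ hσ 1 (by simp)
    simpa using this
  -- the ideal is nonzero
  have hI0 : ∃ x : A, x ≠ 0 ∧ x ∈ coreIdeal L := by
    obtain ⟨x₀, -⟩ := exists_point (A := A) (I := ⊥) (by
      rw [Ne, Ideal.eq_top_iff_one, Ideal.mem_bot]; exact one_ne_zero)
    obtain ⟨δ, a, hδ, hJx⟩ := exists_jacobian hn hA hF x₀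
    have hJ : (Matrix.of fun i j => δ i (a j)).det ≠ 0 := by
      intro h0; rw [h0, map_zero] at hJx; exact hJx rfl
    choose y hy0 hy using fun i => coreSub_lnd (hδ i) (hL (δ i) (hδ i)) hm hm0
    refine ⟨(∏ i, y i) * (Matrix.of fun i j => δ i (a j)).det,
      mul_ne_zero (Finset.prod_ne_zero_iff.mpr fun i _ => hy0 i) hJ, fun D => ?_⟩
    obtain ⟨c, hc⟩ := jacobian_smul hA.trdeg δ a hJ D
    rw [mul_smul, hc, Finset.smul_sum]
    apply Submodule.sum_mem
    intro k _
    rw [← Finset.mul_prod_erase Finset.univ y (Finset.mem_univ k)]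
    have h1 : (y k * ∏ i ∈ Finset.univ.erase k, y i) • c k • δ k =
        ((∏ i ∈ Finset.univ.erase k, y i) * c k) • (y k • δ k) := by
      rw [smul_smul, smul_smul]
      congr 1
      ring
    rw [h1]
    exact smul_mem_coreSub (hy k) _
  have hItop : coreIdeal L = ⊤ := by
    by_contra hne
    obtain ⟨x, hx⟩ := exists_point hne
    obtain ⟨δ, a, hδ, hJx⟩ := exists_jacobian hn hA hF x
    set J := (Matrix.of fun i j => δ i (a j)).det with hJdef
    have hJ : J ≠ 0 := by
      intro h0; rw [h0, map_zero] at hJx; exact hJx rfl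
    let P : Ideal A :=
      { carrier := {g | ∃ k : ℕ, J ^ k * g ∈ coreIdeal L}
        zero_mem' := ⟨0, by rw [mul_zero]; exact (coreIdeal L).zero_mem⟩
        add_mem' := by
          rintro g g' ⟨k, hk⟩ ⟨k', hk'⟩
          refine ⟨k + k', ?_⟩
          have : J ^ (k + k') * (g + g') = J ^ k' * (J ^ k * g) + J ^ k * (J ^ k' * g') := by ring
          rw [this]
          exact (coreIdeal L).add_mem ((coreIdeal L).mul_mem_left _ hk)
            ((coreIdeal L).mul_mem_left _ hk')
        smul_mem' := by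
          rintro c g ⟨k, hk⟩
          refine ⟨k, ?_⟩
          have : J ^ k * (c • g) = c * (J ^ k * g) := by rw [smul_eq_mul]; ring
          rw [this]
          exact (coreIdeal L).mul_mem_left _ hk }
    have hPmem : ∀ g, g ∈ P ↔ ∃ k : ℕ, J ^ k * g ∈ coreIdeal L := fun g => Iff.rfl
    obtain ⟨g, hg0, hg⟩ := hI0
    obtain ⟨G, hG0, hG⟩ := exists_dvd_aeval (algebraicIndependent_of_jacobian δ a hJ) hA.trdeg hg0
    apply hG0
    refine jacobian_lemma (P := P) ?_ δ ?_ a ?_ G ?_
    · rw [hPmem]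
      rintro ⟨k, hk⟩
      rw [mul_one] at hk
      have := hx _ hk
      rw [map_pow] at this
      exact pow_ne_zero k hJx this
    · intro i g hg
      rw [hPmem] at hg ⊢
      obtain ⟨k, hk⟩ := hg
      refine ⟨k + 1, ?_⟩
      have h1 := coreIdeal_stable (hLσ _ (hδ i)) hk
      have h2 := (coreIdeal L).mul_mem_left J h1
      have h3 := (coreIdeal L).mul_mem_left (k * δ i J) hk
      have h4 : J ^ (k + 1) * δ i g = J * δ i (J ^ k * g) - k * δ i J * (J ^ k * g) := by
        rw [Derivation.leibniz, Derivation.leibniz_pow]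
        simp only [smul_eq_mul, nsmul_eq_mul]
        rcases k with _ | k
        · simp
        · rw [Nat.add_sub_cancel]
          ring
      rw [h4]
      exact (coreIdeal L).sub_mem h2 h3
    · intro g hg
      rw [hPmem] at hg ⊢
      obtain ⟨k, hk⟩ := hg
      refine ⟨k + 1, ?_⟩
      rw [pow_succ, mul_assoc]
      exact hk
    · rw [hPmem]
      refine ⟨0, ?_⟩
      rw [pow_zero, one_mul]
      obtain ⟨g', hg'⟩ := hG
      rw [hg']
      exact (coreIdeal L).mul_mem_right _ hg
  rw [eq_top_iff]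
  intro D _
  have h1 : (1 : A) ∈ coreIdeal L := by rw [hItop]; exact Submodule.mem_top
  have h2 := h1 D 1
  rwa [one_smul, one_smul] at h2

end Pool.Agent.H29.Flex
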