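import Pool.Agent.H29.Flex.Crit
import Pool.Agent.H29.Flex.Glue

/-!
# Flexible surfaces
-/

namespace Pool.Agent.H29.Flex

open Polynomial

variable {A : Type*} [CommRing A] [Algebra ℂ A] [IsDomain A]

theorem isAlgebraic_ker (hd : Algebra.trdeg ℂ A = 2) {σ τ : Derivation ℂ A A} (hτ0 : τ ≠ 0)
    {v f : A} (hv : τ v = 0) (hσv : σ v ≠ 0) (hf : τ f = 0) :
    IsAlgebraic (Algebra.adjoin ℂ {v}) f := by
  by_contra h
  have h1 : AlgebraicIndependent ℂ (fun _ : Fin 1 => v) := by
    apply algebraicIndependent_of_jacobian (fun _ => σ)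
    rw [Matrix.det_unique]
    exact hσv
  have h2 : AlgebraicIndependent ℂ (fun o : Option (Fin 1) => o.elim f fun _ => v) := by
    rw [h1.option_iff_transcendental f, Set.range_const]
    exact h
  have h3 : IsTranscendenceBasis ℂ (fun o : Option (Fin 1) => o.elim f fun _ => v) := by
    apply h2.isTranscendenceBasis_of_lift_trdeg_le_of_finite
    rw [hd]
    simp
  have h4 := h3.isAlgebraic
  apply hτ0
  apply Derivation.ext
  intro x
  refine derivation_eq_zero_of_isAlgebraic τ _ (fun r hr => ?_) (h4.isAlgebraic x)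
  have h5 : Algebra.adjoin ℂ (Set.range fun o : Option (Fin 1) => o.elim f fun _ => v) ≤
      kerAlg τ := by
    rw [Algebra.adjoin_le_iff]
    rintro _ ⟨o, rfl⟩
    cases o with
    | none => exact hf
    | some i => exact hv
  exact h5 hr

theorem finset_denominator {V O : Subalgebra ℂ A} (hVO : V ≤ O) (F : Finset A)
    (hF : ∀ x ∈ F, ∃ m ∈ V, m ≠ 0 ∧ m * x ∈ O) : ∃ m ∈ V, m ≠ 0 ∧ ∀ x ∈ F, m * x ∈ O := by
  classical
  choose! m hmV hm0 hm using hF
  refine ⟨∏ x ∈ F, m x, Subalgebra.prod_mem _ hmV, Finset.prod_ne_zero_iff.mpr hm0,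
    fun x hx => ?_⟩
  rw [← Finset.prod_erase_mul F m hx, mul_assoc]
  exact O.mul_mem (Subalgebra.prod_mem _ fun y hy => hVO (hmV y (Finset.mem_of_mem_erase hy)))
    (hm x hx)

/-- Elements that become elements of `O` after multiplication by a nonzero element of `V`. -/
def locAlg (V O : Subalgebra ℂ A) (hVO : V ≤ O) : Subalgebra ℂ A where
  carrier := {a | ∃ m ∈ V, m ≠ 0 ∧ m * a ∈ O}
  mul_mem' := by
    rintro x y ⟨m, hmV, hm0, hm⟩ ⟨m', hmV', hm0', hm'⟩
    refine ⟨m * m', V.mul_mem hmV hmV', mul_ne_zero hm0 hm0', ?_⟩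
    have : m * m' * (x * y) = (m * x) * (m' * y) := by ring
    rw [this]
    exact O.mul_mem hm hm'
  add_mem' := by
    rintro x y ⟨m, hmV, hm0, hm⟩ ⟨m', hmV', hm0', hm'⟩
    refine ⟨m * m', V.mul_mem hmV hmV', mul_ne_zero hm0 hm0', ?_⟩
    have : m * m' * (x + y) = m' * (m * x) + m * (m' * y) := by ring
    rw [this]
    exact O.add_mem (O.mul_mem (hVO hmV') hm) (O.mul_mem (hVO hmV) hm')
  algebraMap_mem' := by
    intro c
    exact ⟨1, V.one_mem, one_ne_zero, by rw [one_mul]; exact O.algebraMap_mem c⟩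

omit [IsDomain A] in
theorem leadingCoeff_mul_mem {O : Subalgebra ℂ A} (hO : ∀ a, IsIntegral O a → a ∈ O) {P : A[X]}
    (hP : ∀ n, P.coeff n ∈ O) {h : A} (hh : P.eval h = 0) : P.leadingCoeff * h ∈ O := by
  have h1 : P ∈ lifts (algebraMap O A) := by
    rw [lifts_iff_coeff_lifts]
    intro n
    exact ⟨⟨P.coeff n, hP n⟩, rfl⟩
  obtain ⟨q, hq⟩ := (mem_lifts _).mp h1
  have h2 : aeval h q = 0 := by
    rw [aeval_def, ← eval_map, hq, hh]
  have h3 := isIntegral_leadingCoeff_smul q h h2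
  have h4 : q.leadingCoeff • h = P.leadingCoeff * h := by
    rw [← hq, leadingCoeff_map_of_injective Subtype.val_injective]
    rfl
  rw [h4] at h3
  exact hO _ h3

theorem exists_denominator {τ : Derivation ℂ A A} (hτ : IsLND τ) {V O : Subalgebra ℂ A}
    (hVO : V ≤ O) (hVK : ∀ x ∈ V, τ x = 0) (hO : ∀ a, IsIntegral O a → a ∈ O)
    (hK : ∀ f, τ f = 0 → IsAlgebraic V f) {u : A} (hu : u ∈ O) (hτu : τ u ≠ 0) (a : A) :
    ∃ m ∈ V, m ≠ 0 ∧ m * a ∈ O := by
  classical
  have hτ0 : τ ≠ 0 := by rintro rfl; exact hτu rfl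
  -- (i)
  have hKT : ∀ f, τ f = 0 → ∃ m ∈ V, m ≠ 0 ∧ m * f ∈ O := by
    intro f hf
    obtain ⟨y, hy0, hy⟩ := (hK f hf).exists_integral_multiple
    refine ⟨y, y.2, fun h0 => hy0 (Subtype.ext h0), hO _ ?_⟩
    obtain ⟨p, hp, hpx⟩ := hy
    refine isIntegral_of_coeff (P := p.map (algebraMap _ A)) (hp.map _) (fun n => ?_)
      (by rw [eval_map]; exact hpx)
    rw [coeff_map]
    exact hVO (p.coeff n).2
  -- (ii)
  have hdiv : ∀ g a, τ g = 0 → g ≠ 0 → (∃ m ∈ V, m ≠ 0 ∧ m * (g * a) ∈ O) →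
      ∃ m ∈ V, m ≠ 0 ∧ m * a ∈ O := by
    rintro g a hg hg0 ⟨m, hmV, hm0, hm⟩
    obtain ⟨p, hp0, g', hp⟩ := (hK g hg).exists_nonzero_dvd (mem_nonZeroDivisors_of_ne_zero hg0)
    have hp' : (p : A) = g * g' := hp
    have hp0' : (p : A) ≠ 0 := fun h0 => hp0 (Subtype.ext h0)
    have hg' : τ g' = 0 := by
      have h1 := hVK _ p.2
      rw [hp', Derivation.leibniz, hg, smul_zero, add_zero, smul_eq_mul] at h1
      exact (mul_eq_zero.mp h1).resolve_left hg0
    obtain ⟨m', hmV', hm0', hm'⟩ := hKT g' hg'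
    refine ⟨m' * p * m, V.mul_mem (V.mul_mem hmV' p.2) hmV,
      mul_ne_zero (mul_ne_zero hm0' hp0') hm0, ?_⟩
    have : m' * p * m * a = (m' * g') * (m * (g * a)) := by rw [hp']; ring
    rw [this]
    exact O.mul_mem hm' hm
  -- (iii)
  obtain ⟨h, hq, hh⟩ := exists_slice hτ hτ0
  set K := kerAlg τ with hKdef
  set B : Subalgebra ℂ A := (Algebra.adjoin K {h}).restrictScalars ℂ with hB
  have hKB : ∀ a, τ a = 0 → a ∈ B := by
    intro a ha
    rw [hB, Subalgebra.mem_restrictScalars]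
    exact (Algebra.adjoin K {h}).algebraMap_mem ⟨a, ha⟩
  have hhB : h ∈ B := by
    rw [hB, Subalgebra.mem_restrictScalars]
    exact Algebra.subset_adjoin rfl
  have hhT : ∃ m ∈ V, m ≠ 0 ∧ m * h ∈ O := by
    obtain ⟨r, hr1, hr2, hr3⟩ := exists_mul_mem hτ hKB hhB hq hh u
    rw [hB, Subalgebra.mem_restrictScalars, Algebra.adjoin_singleton_eq_range_aeval] at hr3
    obtain ⟨P, hP⟩ := hr3
    have hP' : aeval h P = r * u := hP
    have hdeg : P.natDegree ≠ 0 := by
      intro h0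
      rw [eq_C_of_natDegree_eq_zero h0, aeval_C] at hP'
      have h1 : τ (r * u) = 0 := by
        rw [← hP']
        exact (P.coeff 0).2
      rw [Derivation.leibniz, hr1, smul_zero, add_zero, smul_eq_mul] at h1
      exact mul_ne_zero hr2 hτu h1
    set P' : A[X] := P.map (algebraMap K A) with hP'def
    have hcoeffT : ∀ x ∈ insert r P'.coeffs, ∃ m ∈ V, m ≠ 0 ∧ m * x ∈ O := by
      intro x hx
      apply hKT
      rw [Finset.mem_insert] at hx
      rcases hx with rfl | hx
      · exact hr1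
      · rw [mem_coeffs_iff] at hx
        obtain ⟨n, -, rfl⟩ := hx
        rw [hP'def, coeff_map]
        exact (P.coeff n).2
    obtain ⟨m, hmV, hm0, hm⟩ := finset_denominator hVO _ hcoeffT
    set Q : A[X] := C m * P' - C (m * r * u) with hQ
    have hQc : ∀ n, Q.coeff n ∈ O := by
      intro n
      rw [hQ, coeff_sub, coeff_C_mul, coeff_C]
      refine O.sub_mem ?_ ?_
      · by_cases h0 : P'.coeff n = 0
        · rw [h0, mul_zero]; exact O.zero_mem
        · exact hm _ (Finset.mem_insert_of_mem (coeff_mem_coeffs h0))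
      · split_ifs
        · exact O.mul_mem (hm _ (Finset.mem_insert_self _ _)) hu
        · exact O.zero_mem
    have hQh : Q.eval h = 0 := by
      rw [hQ, eval_sub, eval_mul, eval_C, eval_C, hP'def, eval_map]
      have : eval₂ (algebraMap K A) h P = r * u := hP'
      rw [this]; ring
    have hP'deg : P'.natDegree = P.natDegree :=
      natDegree_map_eq_of_injective Subtype.val_injective P
    have hQl : Q.leadingCoeff = m * P'.leadingCoeff := by
      have h1 : (C (m * r * u)).degree < (C m * P').degree := by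
        rw [degree_C_mul hm0]
        refine lt_of_le_of_lt degree_C_le ?_
        rw [← natDegree_pos_iff_degree_pos, hP'deg]
        exact Nat.pos_of_ne_zero hdeg
      rw [hQ, leadingCoeff_sub_of_degree_lt h1, leadingCoeff_mul, leadingCoeff_C]
    have h2 := leadingCoeff_mul_mem hO hQc hQh
    rw [hQl] at h2
    have h3 : P'.leadingCoeff ≠ 0 := by
      rw [leadingCoeff_ne_zero]
      intro h0
      rw [h0, natDegree_zero] at hP'deg
      exact hdeg hP'deg.symm
    have h4 : τ P'.leadingCoeff = 0 := by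
      rw [hP'def, leadingCoeff_map_of_injective Subtype.val_injective]
      exact (P.leadingCoeff).2
    refine hdiv (m * P'.leadingCoeff) h ?_ (mul_ne_zero hm0 h3)
      ⟨1, V.one_mem, one_ne_zero, by rw [one_mul]; exact h2⟩
    rw [Derivation.leibniz, h4, hVK m hmV]; simp
  -- (iv)
  obtain ⟨r, hr1, hr2, hr3⟩ := exists_mul_mem hτ (B := locAlg V O hVO) hKT hhT hq hh a
  exact hdiv r a hr1 hr2 hr3

omit [IsDomain A] [Algebra ℂ A] in
/-- Change of the coefficient ring in integrality. -/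
theorem isIntegral_of_range {R S : Type*} [CommRing R] [CommRing S] [Algebra R A] [Algebra S A]
    (h : ∀ s : S, ∃ r : R, algebraMap R A r = algebraMap S A s) {x : A} (hx : IsIntegral S x) :
    IsIntegral R x := by
  obtain ⟨p, hp, hpx⟩ := hx
  have h1 : p.map (algebraMap S A) ∈ lifts (algebraMap R A) := by
    rw [lifts_iff_coeff_lifts]
    intro n
    rw [coeff_map]
    exact h _
  obtain ⟨q, hq1, -, hq3⟩ := lifts_and_natDegree_eq_and_monic h1 (hp.map _)
  refine ⟨q, hq3, ?_⟩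
  rw [← eval_map, hq1, eval_map, hpx]

/-- The evaluation `ℂ[X][Y] → A`, `X ↦ u`, `Y ↦ v`. -/
noncomputable def evalTwo (u v : A) : ℂ[X][X] →+* A :=
  eval₂RingHom ((aeval u : ℂ[X] →ₐ[ℂ] A) : ℂ[X] →+* A) v

omit [IsDomain A] in
theorem evalTwo_C (u v : A) (p : ℂ[X]) : evalTwo u v (C p) = aeval u p := by
  simp [evalTwo]

omit [IsDomain A] in
theorem evalTwo_map (u v : A) (p : ℂ[X]) : evalTwo u v (p.map C) = aeval v p := by
  rw [evalTwo, coe_eval₂RingHom, eval₂_map, aeval_def]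
  congr 1
  ext c
  simp

theorem transcendental_of_ne {σ : Derivation ℂ A A} {R : Subalgebra ℂ A}
    (hR : ∀ r ∈ R, σ r = 0) {v : A} (hv : σ v ≠ 0) : Transcendental R v :=
  fun h => hv (derivation_eq_zero_of_isAlgebraic σ R hR h)

omit [IsDomain A] in
theorem adjoin_ker {σ : Derivation ℂ A A} {u : A} (hu : σ u = 0) :
    ∀ r ∈ Algebra.adjoin ℂ {u}, σ r = 0 := by
  have : Algebra.adjoin ℂ {u} ≤ kerAlg σ := by
    rw [Algebra.adjoin_le_iff, Set.singleton_subset_iff]
    exact hu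
  exact fun r hr => this hr

theorem evalTwo_injective {σ τ : Derivation ℂ A A} {u v : A} (hσu : σ u = 0) (hσv : σ v ≠ 0)
    (hτu : τ u ≠ 0) : Function.Injective (evalTwo u v) := by
  rw [injective_iff_map_eq_zero]
  intro G hG
  have hu : Function.Injective (aeval u : ℂ[X] →ₐ[ℂ] A) := by
    rw [injective_iff_map_eq_zero]
    intro f hf
    by_contra hf0
    have h1 : IsAlgebraic (⊥ : Subalgebra ℂ A) u := by
      refine ⟨f.map (algebraMap ℂ (⊥ : Subalgebra ℂ A)), ?_, ?_⟩
      · rw [Ne, Polynomial.map_eq_zero_iff (FaithfulSMul.algebraMap_injective _ _)]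
        exact hf0
      · rw [aeval_map_algebraMap]; exact hf
    refine hτu (derivation_eq_zero_of_isAlgebraic τ _ ?_ h1)
    intro r hr
    obtain ⟨c, rfl⟩ := Algebra.mem_bot.mp hr
    exact τ.map_algebraMap c
  by_contra hG0
  set U := Algebra.adjoin ℂ {u} with hU
  have huU : u ∈ U := Algebra.subset_adjoin rfl
  set ψ : ℂ[X] →ₐ[ℂ] U := aeval (⟨u, huU⟩ : U) with hψ
  have hψ1 : (algebraMap U A).comp (ψ : ℂ[X] →+* U) =
      ((aeval u : ℂ[X] →ₐ[ℂ] A) : ℂ[X] →+* A) := by
    ext x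
    · simp [hψ]
    · simp [hψ]
  have hψ2 : Function.Injective (ψ : ℂ[X] →+* U) := by
    intro f g hfg
    apply hu
    have h1 := congrArg (algebraMap U A) hfg
    have h2 := RingHom.congr_fun hψ1 f
    have h3 := RingHom.congr_fun hψ1 g
    rw [RingHom.comp_apply] at h2 h3
    rw [h2, h3] at h1
    exact h1
  refine transcendental_of_ne (adjoin_ker hσu) hσv ⟨G.map (ψ : ℂ[X] →+* U), ?_, ?_⟩
  · rw [Ne, Polynomial.map_eq_zero_iff hψ2]
    exact hG0
  · rw [aeval_def, eval₂_map, hψ1]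
    exact hG

/-- On a flexible surface every function is integral over the first integrals of two
transversal locally nilpotent derivations. -/
theorem surface_integral (hd : Algebra.trdeg ℂ A = 2) {σ τ : Derivation ℂ A A} {u v : A}
    (hσ : IsLND σ) (hτ : IsLND τ) (hσu : σ u = 0) (hτu : τ u ≠ 0) (hτv : τ v = 0) (hσv : σ v ≠ 0)
    (a : A) : IsIntegral (Algebra.adjoin ℂ {u, v}) a := by
  have hσ0 : σ ≠ 0 := by rintro rfl; exact hσv rfl
  have hτ0 : τ ≠ 0 := by rintro rfl; exact hτu rfl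
  set S := Algebra.adjoin ℂ {u, v} with hS
  set O : Subalgebra ℂ A := (integralClosure S A).restrictScalars ℂ with hO
  have hOmem : ∀ x, x ∈ O ↔ IsIntegral S x := fun x => Iff.rfl
  have hSO : ∀ x ∈ S, x ∈ O := by
    intro x hx
    rw [hOmem]
    exact isIntegral_algebraMap (R := S) (x := ⟨x, hx⟩)
  have hOint : ∀ a, IsIntegral O a → a ∈ O := by
    intro a ha
    rw [hOmem]
    have h1 : IsIntegral (integralClosure S A) a := ha
    exact isIntegral_trans a h1
  have huS : u ∈ S := Algebra.subset_adjoin (by simp)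
  have hvS : v ∈ S := Algebra.subset_adjoin (by simp)
  have hVO : Algebra.adjoin ℂ {v} ≤ O := by
    rw [Algebra.adjoin_le_iff, Set.singleton_subset_iff]
    exact hSO v hvS
  have hUO : Algebra.adjoin ℂ {u} ≤ O := by
    rw [Algebra.adjoin_le_iff, Set.singleton_subset_iff]
    exact hSO u huS
  obtain ⟨m, hmV, hm0, hm⟩ := exists_denominator hτ hVO (adjoin_ker hτv) hOint
    (fun f hf => isAlgebraic_ker hd hτ0 hτv hσv hf) (hSO u huS) hτu a
  obtain ⟨m', hmV', hm0', hm'⟩ := exists_denominator hσ hUO (adjoin_ker hσu) hOint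
    (fun f hf => isAlgebraic_ker hd hσ0 hσu hτu hf) (hSO v hvS) hσv a
  rw [Algebra.adjoin_singleton_eq_range_aeval] at hmV hmV'
  obtain ⟨p, hp⟩ := hmV
  obtain ⟨p', hp'⟩ := hmV'
  have hp1 : aeval v p = m := hp
  have hp1' : aeval u p' = m' := hp'
  have hp0 : p ≠ 0 := by rintro rfl; rw [map_zero] at hp1; exact hm0 hp1.symm
  have hp0' : p' ≠ 0 := by rintro rfl; rw [map_zero] at hp1'; exact hm0' hp1'.symm
  let _ : Algebra ℂ[X][X] A := (evalTwo u v).toAlgebra
  have halg : ∀ G : ℂ[X][X], algebraMap ℂ[X][X] A G = evalTwo u v G := fun G => rfl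
  have hinj : Function.Injective (algebraMap ℂ[X][X] A) := evalTwo_injective hσu hσv hτu
  have : FaithfulSMul ℂ[X][X] A := (faithfulSMul_iff_algebraMap_injective _ _).mpr hinj
  have hSR : ∀ s : S, ∃ r : ℂ[X][X], algebraMap ℂ[X][X] A r = algebraMap S A s := by
    rintro ⟨s, hs⟩
    have h1 : S ≤ (AlgHom.range ({ evalTwo u v with
        commutes' := fun c => by
          show evalTwo u v (C (C c)) = _
          rw [evalTwo_C, aeval_C] } : ℂ[X][X] →ₐ[ℂ] A)) := by
      rw [hS, Algebra.adjoin_le_iff]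
      rintro x (rfl | rfl)
      · exact ⟨C X, by show evalTwo x v (C X) = x; rw [evalTwo_C, aeval_X]⟩
      · exact ⟨X, by show evalTwo u x X = x; simp [evalTwo]⟩
    obtain ⟨r, hr⟩ := h1 hs
    exact ⟨r, hr⟩
  have h1 : IsIntegral ℂ[X][X] ((p.map C : ℂ[X][X]) • a) := by
    rw [Algebra.smul_def, halg, evalTwo_map, hp1]
    exact isIntegral_of_range hSR ((hOmem _).mp hm)
  have h2 : IsIntegral ℂ[X][X] ((C p' : ℂ[X][X]) • a) := by
    rw [Algebra.smul_def, halg, evalTwo_C, hp1']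
    exact isIntegral_of_range hSR ((hOmem _).mp hm')
  have h3 : IsIntegral ℂ[X][X] a := by
    refine isIntegral_of_isRelPrime (m := C p') (m' := p.map C) (by rwa [Ne, C_eq_zero]) ?_
      (isRelPrime_C_map hp0' hp0) h2 h1
    rw [Ne, Polynomial.map_eq_zero_iff C_injective]
    exact hp0
  refine isIntegral_of_range (R := S) (S := ℂ[X][X]) (fun G => ?_) h3
  refine ⟨⟨evalTwo u v G, ?_⟩, rfl⟩
  rw [evalTwo, coe_eval₂RingHom, eval₂_eq_sum_range]
  refine S.sum_mem fun i _ => S.mul_mem ?_ (S.pow_mem hvS i)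
  show aeval u (G.coeff i) ∈ S
  have h4 : aeval u (G.coeff i) ∈ Algebra.adjoin ℂ {u} := by
    rw [Algebra.adjoin_singleton_eq_range_aeval]
    exact ⟨_, rfl⟩
  exact Algebra.adjoin_mono (by simp) h4

/-- Every flexible affine surface has the algebraic density property. -/
theorem hasADP_of_surface {A : Type*} [CommRing A] [Algebra ℂ A] (hA : IsAffineManifold A 2)
    (hF : IsFlexible A) : HasADP A := by
  have := hA.isDomain
  obtain ⟨σ, τ, u, v, hσ, hτ, hu1, hu2, hv1, hv2⟩ := exists_transversal le_rfl hA hF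
  refine hasADP_of_integral le_rfl hA hF fun a => ?_
  have h1 := surface_integral (by exact_mod_cast hA.trdeg) hσ hτ hu1 hu2 hv1 hv2 a
  have h2 : Algebra.adjoin ℂ {u, v} ≤ Algebra.adjoin ℂ (firstIntegrals A) := by
    apply Algebra.adjoin_mono
    rintro x (rfl | rfl)
    · exact ⟨σ, hσ.isComplete, by rintro rfl; exact hv2 rfl, hu1⟩
    · exact ⟨τ, hτ.isComplete, by rintro rfl; exact hu2 rfl, hv1⟩
  exact isIntegral_of_range (R := Algebra.adjoin ℂ (firstIntegrals A))
    (S := Algebra.adjoin ℂ {u, v}) (fun s => ⟨⟨s, h2 s.2⟩, rfl⟩) h1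

end Pool.Agent.H29.Flex
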